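import Pool.Agent.Helper44.RC.M_BRQ
import Pool.Agent.Helper87.RC.M_BIL

/-!
# Project RC, SHARP: rotation invariance

The area form `FMQ` and the mean `mQ` do not change if `w`, `b`, `z` are replaced by their translates.
So in `Rq q κ` one may assume that the Fourier coefficient `fc z (-3)` is real and nonnegative, and that
`fc z (-5)` is real and nonnegative if `fc z (-3) = 0`.
-/

set_option autoImplicit false

open MeasureTheory Set Filter Metric

namespace Pool.Agent.Helper35.RC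

open Helper97.CB Helper49.LT Helper49.RC Helper44.GQ
open Helper56.RC (fc)

theorem per_shift {E : Type} [NormedAddCommGroup E] [NormedSpace ℝ E] (f : ℝ → E)
    (hp : ∀ t, f (t + 2 * Real.pi) = f t) (τ : ℝ) :
    ∫ t in (0 : ℝ)..(2 * Real.pi), f (t + τ) = ∫ t in (0 : ℝ)..(2 * Real.pi), f t := by
  have hper : Function.Periodic f (2 * Real.pi) := hp
  rw [intervalIntegral.integral_comp_add_right]
  have := hper.intervalIntegral_add_eq τ 0
  rw [zero_add] at this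
  rw [zero_add, add_comm (2 * Real.pi) τ]
  exact this

theorem fc_shift (f : ℝ → ℂ) (hp : ∀ t, f (t + 2 * Real.pi) = f t) (τ : ℝ) (n : ℤ) :
    fc (fun t => f (t + τ)) n = ee ((n : ℝ) * τ) * fc f n := by
  unfold fc
  have hper : ∀ t, f (t + 2 * Real.pi) * ee (-((n : ℝ) * (t + 2 * Real.pi))) =
      f t * ee (-((n : ℝ) * t)) := by
    intro t
    have e1 : ee (-((n : ℝ) * (t + 2 * Real.pi))) = ee (-((n : ℝ) * t)) := by
      have : -((n : ℝ) * (t + 2 * Real.pi)) = -((n : ℝ) * t) + ((-n : ℤ) : ℝ) * (2 * Real.pi) := by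
        push_cast; ring
      rw [this, ee_add]
      have h1 : ee (((-n : ℤ) : ℝ) * (2 * Real.pi)) = 1 := by
        unfold ee
        have : ((((-n : ℤ) : ℝ) * (2 * Real.pi) : ℝ) : ℂ) * Complex.I =
            ((-n : ℤ) : ℂ) * (2 * Real.pi * Complex.I) := by push_cast; ring
        rw [this, Complex.exp_int_mul_two_pi_mul_I]
      rw [h1, mul_one]
    rw [hp, e1]
  have h1 := per_shift (fun t => f t * ee (-((n : ℝ) * t))) hper τ
  have h2 : ∀ t : ℝ, f (t + τ) * ee (-((n : ℝ) * t)) =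
      ee ((n : ℝ) * τ) * (f (t + τ) * ee (-((n : ℝ) * (t + τ)))) := by
    intro t
    have : ee (-((n : ℝ) * t)) = ee ((n : ℝ) * τ) * ee (-((n : ℝ) * (t + τ))) := by
      rw [← ee_add]; congr 1; ring
    rw [this]; ring
  simp_rw [h2]
  rw [intervalIntegral.integral_const_mul, h1]
  ring

theorem nn_rot (n : ℕ) (τ : ℝ) (x : ℂ) : nn n (ee (-τ) * x) = ee ((n : ℝ) * τ) * nn n x := by
  unfold nn
  have h1 : ‖ee (-τ) * x‖ = ‖x‖ := by rw [norm_mul, norm_ee, one_mul]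
  have h2 : (starRingEnd ℂ) (ee (-τ)) = ee τ := by rw [← ee_neg, neg_neg]
  have h3 : ee τ ^ n = ee ((n : ℝ) * τ) := by
    unfold ee
    rw [← Complex.exp_nat_mul]
    congr 1
    push_cast
    ring
  rw [h1, map_mul, h2, mul_div_assoc, mul_pow, h3]
  ring

theorem admQ_shift {q : ℝ} {b z : ℝ → ℂ} (h : AdmQ q b z) (τ : ℝ) :
    AdmQ q (fun t => b (t + τ)) (fun t => z (t + τ)) := by
  obtain ⟨δ, hδ, hb⟩ := h.bdb
  refine ⟨h.mb.comp (measurable_id.add_const τ), h.mz.comp (measurable_id.add_const τ), ?_, ?_,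
    ⟨δ, hδ, fun t => hb (t + τ)⟩, fun t => h.reg (t + τ)⟩
  · intro t
    have := h.perb (t + τ)
    rw [show t + Real.pi + τ = t + τ + Real.pi by ring]
    exact this
  · intro t
    have := h.perz (t + τ)
    rw [show t + Real.pi + τ = t + τ + Real.pi by ring]
    exact this

theorem wgt_shift {w : ℝ → ℝ} (h : Wgt w) (τ : ℝ) : Wgt (fun t => w (t + τ)) := by
  obtain ⟨C, hC⟩ := h.bd
  refine ⟨h.m.comp (measurable_id.add_const τ), fun t => h.nonneg (t + τ), ⟨C, fun t => hC (t + τ)⟩,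
    ?_, ?_⟩
  · intro t
    have := h.per (t + τ)
    rw [show t + Real.pi + τ = t + τ + Real.pi by ring]
    exact this
  · have h2 : ∀ t, w (t + 2 * Real.pi) = w t := by
      intro t
      rw [show t + 2 * Real.pi = t + Real.pi + Real.pi by ring, h.per, h.per]
    rw [per_shift w h2 τ]
    exact h.pos

theorem mQ_shift {w : ℝ → ℝ} {b : ℝ → ℂ} (hw : ∀ t, w (t + Real.pi) = w t)
    (hb : ∀ t, b (t + Real.pi) = b t) (τ : ℝ) :
    mQ (fun t => w (t + τ)) (fun t => b (t + τ)) = mQ w b := by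
  unfold mQ
  congr 1
  have hp : ∀ t, w (t + 2 * Real.pi) * Real.sqrt (1 - ‖b (t + 2 * Real.pi)‖ ^ 2) =
      w t * Real.sqrt (1 - ‖b t‖ ^ 2) := by
    intro t
    rw [show t + 2 * Real.pi = t + Real.pi + Real.pi by ring, hw, hw, hb, hb]
  exact per_shift (fun t => w t * Real.sqrt (1 - ‖b t‖ ^ 2)) hp τ

theorem sgE_shift {e0 e1 e2 f0 f1 f2 : ℝ → ℂ} (τ : ℝ)
    (h0 : ∀ t, f0 t = ee (-τ) * e0 (t + τ)) (h1 : ∀ t, f1 t = ee (-τ) * e1 (t + τ))
    (h2 : ∀ t, f2 t = ee (-τ) * e2 (t + τ))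
    (p0 : ∀ t, e0 (t + 2 * Real.pi) = e0 t) (p1 : ∀ t, e1 (t + 2 * Real.pi) = e1 t)
    (p2 : ∀ t, e2 (t + 2 * Real.pi) = e2 t) (n : ℕ) :
    sgE f0 f1 f2 n = ee ((n : ℝ) * τ) * sgE e0 e1 e2 n := by
  unfold sgE
  have hp := per_shift (fun t => nn n (e0 t) + nn n (e1 t) + nn n (e2 t))
    (fun t => by rw [p0, p1, p2]) τ
  have e : ∀ t, nn n (f0 t) + nn n (f1 t) + nn n (f2 t) =
      ee ((n : ℝ) * τ) * (nn n (e0 (t + τ)) + nn n (e1 (t + τ)) + nn n (e2 (t + τ))) := by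
    intro t
    rw [h0, h1, h2, nn_rot, nn_rot, nn_rot]
    ring
  simp_rw [e]
  rw [intervalIntegral.integral_const_mul, hp]
  ring

theorem FME_shift {e0 e1 e2 f0 f1 f2 : ℝ → ℂ} (τ : ℝ)
    (h0 : ∀ t, f0 t = ee (-τ) * e0 (t + τ)) (h1 : ∀ t, f1 t = ee (-τ) * e1 (t + τ))
    (h2 : ∀ t, f2 t = ee (-τ) * e2 (t + τ))
    (p0 : ∀ t, e0 (t + 2 * Real.pi) = e0 t) (p1 : ∀ t, e1 (t + 2 * Real.pi) = e1 t)
    (p2 : ∀ t, e2 (t + 2 * Real.pi) = e2 t) :
    FME f0 f1 f2 = FME e0 e1 e2 := by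
  have hs : ∀ n, ‖sgE f0 f1 f2 n‖ = ‖sgE e0 e1 e2 n‖ := by
    intro n
    rw [sgE_shift τ h0 h1 h2 p0 p1 p2, norm_mul, norm_ee, one_mul]
  unfold FME
  rw [hs]
  simp_rw [hs]

theorem FMQ_shift {w : ℝ → ℝ} {q : ℝ} {b z : ℝ → ℂ} (h : AdmQ q b z)
    (hw : ∀ t, w (t + Real.pi) = w t) (τ : ℝ) :
    FMQ (fun t => w (t + τ)) q (fun t => b (t + τ)) (fun t => z (t + τ)) = FMQ w q b z := by
  unfold FMQ
  have e0 : ∀ t, ee t = ee (-τ) * ee (t + τ) := by
    intro t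
    rw [← ee_add]; congr 1; ring
  have w2 : ∀ t, w (t + 2 * Real.pi) = w t := by
    intro t
    rw [show t + 2 * Real.pi = t + Real.pi + Real.pi by ring, hw, hw]
  have b2 : ∀ t, b (t + 2 * Real.pi) = b t := by
    intro t
    rw [show t + 2 * Real.pi = t + Real.pi + Real.pi by ring, h.perb, h.perb]
  have z2 : ∀ t, z (t + 2 * Real.pi) = z t := by
    intro t
    rw [show t + 2 * Real.pi = t + Real.pi + Real.pi by ring, h.perz, h.perz, neg_neg]
  have ee2 : ∀ t, ee (t + 2 * Real.pi) = ee t := by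
    intro t
    rw [show t + 2 * Real.pi = t + Real.pi + Real.pi by ring, RED.ee_add_pi, RED.ee_add_pi, neg_neg]
  refine FME_shift τ ?_ ?_ ?_ ?_ ?_ ?_
  · intro t
    unfold A0Q
    rw [e0 t]; ring
  · intro t
    unfold AAQ vvS
    rw [e0 t]; ring
  · intro t
    unfold BBQ vvS
    rw [e0 t]; ring
  · intro t
    unfold A0Q
    rw [w2, b2, ee2]
  · intro t
    unfold AAQ vvS
    rw [w2, b2, ee2, z2]
  · intro t
    unfold BBQ vvS
    rw [w2, b2, ee2, z2]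

/-- every complex number can be rotated to a nonnegative real number by `ee (k τ)`, `k ≠ 0` -/
theorem exists_rot (c : ℂ) (k : ℤ) (hk : k ≠ 0) : ∃ τ : ℝ, ee ((k : ℝ) * τ) * c = (‖c‖ : ℂ) := by
  refine ⟨-(c.arg) / k, ?_⟩
  have hk' : (k : ℝ) ≠ 0 := by exact_mod_cast hk
  have e1 : (k : ℝ) * (-(c.arg) / k) = -(c.arg) := by field_simp
  rw [e1]
  have h1 := Complex.norm_mul_exp_arg_mul_I c
  have h2 : ee (-(c.arg)) * Complex.exp ((c.arg : ℂ) * Complex.I) = 1 := by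
    unfold ee
    rw [← Complex.exp_add]
    push_cast
    rw [show -(c.arg : ℂ) * Complex.I + (c.arg : ℂ) * Complex.I = 0 by ring, Complex.exp_zero]
  calc ee (-(c.arg)) * c = ee (-(c.arg)) * ((‖c‖ : ℂ) * Complex.exp ((c.arg : ℂ) * Complex.I)) := by rw [h1]
    _ = (‖c‖ : ℂ) * (ee (-(c.arg)) * Complex.exp ((c.arg : ℂ) * Complex.I)) := by ring
    _ = (‖c‖ : ℂ) := by rw [h2, mul_one]

/-- **the reduction to real `fc z (-3) ≥ 0`** (and real `fc z (-5) ≥ 0` if `fc z (-3) = 0`) -/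
theorem rq_wlog (q κ : ℝ) (H : ∀ b z : ℝ → ℂ, AdmQ q b z → fc z (-3) = (‖fc z (-3)‖ : ℂ) →
    (fc z (-3) = 0 → fc z (-5) = (‖fc z (-5)‖ : ℂ)) →
    ∃ w : ℝ → ℝ, Wgt w ∧ 9 * κ * (mQ w b) ^ 2 ≤ FMQ w q b z) : Rq q κ := by
  intro b z hbz
  have z2 : ∀ t, z (t + 2 * Real.pi) = z t := by
    intro t
    rw [show t + 2 * Real.pi = t + Real.pi + Real.pi by ring, hbz.perz, hbz.perz, neg_neg]
  obtain ⟨τ, h3, h5⟩ : ∃ τ : ℝ,
      fc (fun t => z (t + τ)) (-3) = (‖fc (fun t => z (t + τ)) (-3)‖ : ℂ) ∧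
      (fc (fun t => z (t + τ)) (-3) = 0 →
        fc (fun t => z (t + τ)) (-5) = (‖fc (fun t => z (t + τ)) (-5)‖ : ℂ)) := by
    by_cases h0 : fc z (-3) = 0
    · obtain ⟨τ, hτ⟩ := exists_rot (fc z (-5)) (-5) (by norm_num)
      refine ⟨τ, ?_, fun _ => ?_⟩
      · rw [fc_shift z z2, h0]; simp
      · rw [fc_shift z z2, hτ]
        simp
    · obtain ⟨τ, hτ⟩ := exists_rot (fc z (-3)) (-3) (by norm_num)
      refine ⟨τ, ?_, fun h => ?_⟩
      · rw [fc_shift z z2, hτ]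
        simp
      · exfalso
        rw [fc_shift z z2] at h
        rcases mul_eq_zero.1 h with h1 | h1
        · have := norm_ee ((((-3 : ℤ) : ℝ)) * τ)
          rw [h1] at this
          simp at this
        · exact h0 h1
  obtain ⟨w, hw, hle⟩ := H _ _ (admQ_shift hbz τ) h3 h5
  refine ⟨fun t => w (t + -τ), wgt_shift hw (-τ), ?_⟩
  have e1 := FMQ_shift (admQ_shift hbz τ) hw.per (-τ)
  have e2 := mQ_shift (b := fun t => b (t + τ)) hw.per (fun t => by
    have := hbz.perb (t + τ)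
    rw [show t + Real.pi + τ = t + τ + Real.pi by ring]
    exact this) (-τ)
  have eb : (fun t => b (t + -τ + τ)) = b := by funext t; congr 1; ring
  have ez : (fun t => z (t + -τ + τ)) = z := by funext t; congr 1; ring
  rw [eb, ez] at e1
  rw [eb] at e2
  rw [e1, e2]
  exact hle

end Pool.Agent.Helper35.RC
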