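import Pool.Agent.Helper35.RC.Ser

/-!
# Project RC, SHARP: computer algebra for trigonometric polynomials of the base

A polynomial in `u, conj u, v, conj v` with coefficients `p + q √-3` (`p, q` integers) is a list of terms.
`evP u v p` is its value; for `u = A e^{-3it}`, `v = B e^{-5it}` the mean over `t` is the sum of the
resonant terms (`mean_evP`), for total degree `≤ 9` these are the monomials `|u|^{2i} |v|^{2j}` and `u^5 conj v^3`,
`conj u^5 v^3` (`mean_coef`). All computations with lists are done by `decide +kernel`.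
-/

set_option autoImplicit false

open MeasureTheory Set Filter Metric

namespace Pool.Agent.Helper35.Cas

open Helper49.LT hiding sg
open Helper87.RC (BM pars pars2 fc_eq fc_add fc_cmul fc_conj)
open Helper56.RC (fc)
open Pool.Agent.Helper35.RC

/-- monomial `u^i (conj u)^i' v^j (conj v)^j'` -/
abbrev Mo := ℕ × ℕ × ℕ × ℕ
/-- coefficient `p + q √-3` -/
abbrev Co := ℤ × ℤ
/-- polynomial -/
abbrev Po := List (Mo × Co)

/-- `√-3` -/
noncomputable def s3 : ℂ := Complex.I * ((Real.sqrt 3 : ℝ) : ℂ)

theorem s3_sq : s3 * s3 = -3 := by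
  unfold s3
  have h : ((Real.sqrt 3 : ℝ) : ℂ) * ((Real.sqrt 3 : ℝ) : ℂ) = 3 := by
    rw [← Complex.ofReal_mul, Real.mul_self_sqrt (by norm_num)]; norm_num
  linear_combination (Complex.I * Complex.I) * h + 3 * Complex.I_mul_I

theorem s3_conj : (starRingEnd ℂ) s3 = -s3 := by
  unfold s3
  rw [map_mul, Complex.conj_I, Complex.conj_ofReal]
  ring

/-- value of a coefficient -/
noncomputable def evC (c : Co) : ℂ := (c.1 : ℂ) + (c.2 : ℂ) * s3

/-- value of a monomial -/
noncomputable def evM (u v : ℂ) (m : Mo) : ℂ :=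
  u ^ m.1 * (starRingEnd ℂ) u ^ m.2.1 * v ^ m.2.2.1 * (starRingEnd ℂ) v ^ m.2.2.2

/-- value of a polynomial -/
noncomputable def evP (u v : ℂ) (p : Po) : ℂ := (p.map fun x => evC x.2 * evM u v x.1).sum

@[simp] theorem evP_nil (u v : ℂ) : evP u v [] = 0 := rfl
@[simp] theorem evP_cons (u v : ℂ) (x : Mo × Co) (p : Po) :
    evP u v (x :: p) = evC x.2 * evM u v x.1 + evP u v p := by simp [evP]

theorem evP_append (u v : ℂ) (p q : Po) : evP u v (p ++ q) = evP u v p + evP u v q := by
  simp [evP]

/-- product of coefficients -/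
def mulC (a b : Co) : Co := (a.1 * b.1 - 3 * (a.2 * b.2), a.1 * b.2 + a.2 * b.1)

theorem evC_mul (a b : Co) : evC (mulC a b) = evC a * evC b := by
  unfold evC mulC
  push_cast
  linear_combination (-(a.2 : ℂ) * (b.2 : ℂ)) * s3_sq

/-- sum of coefficients -/
def addC (a b : Co) : Co := (a.1 + b.1, a.2 + b.2)

theorem evC_add (a b : Co) : evC (addC a b) = evC a + evC b := by
  unfold evC addC
  push_cast
  ring

/-- product of monomials -/
def mulM (a b : Mo) : Mo := (a.1 + b.1, a.2.1 + b.2.1, a.2.2.1 + b.2.2.1, a.2.2.2 + b.2.2.2)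

theorem evM_mul (u v : ℂ) (a b : Mo) : evM u v (mulM a b) = evM u v a * evM u v b := by
  unfold evM mulM
  simp only [pow_add]
  ring

/-- insertion of a term -/
def ins (m : Mo) (c : Co) : Po → Po
  | [] => [(m, c)]
  | x :: p => if x.1 = m then (m, addC c x.2) :: p else x :: ins m c p

theorem evP_ins (u v : ℂ) (m : Mo) (c : Co) : ∀ p : Po,
    evP u v (ins m c p) = evC c * evM u v m + evP u v p
  | [] => by simp [ins]
  | x :: p => by
    unfold ins
    split_ifs with h
    · rw [evP_cons, evP_cons, evC_add, h]; ring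
    · rw [evP_cons, evP_cons, evP_ins u v m c p]; ring

/-- addition with merging -/
def addP : Po → Po → Po
  | [], q => q
  | x :: p, q => addP p (ins x.1 x.2 q)

theorem evP_add (u v : ℂ) : ∀ p q : Po, evP u v (addP p q) = evP u v p + evP u v q
  | [], q => by simp [addP]
  | x :: p, q => by
    rw [addP, evP_add u v p, evP_ins, evP_cons]; ring

/-- product with a term -/
def mulT (m : Mo) (c : Co) : Po → Po
  | [] => []
  | x :: p => (mulM m x.1, mulC c x.2) :: mulT m c p

theorem evP_mulT (u v : ℂ) (m : Mo) (c : Co) : ∀ p : Po,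
    evP u v (mulT m c p) = evC c * evM u v m * evP u v p
  | [] => by simp [mulT]
  | x :: p => by
    rw [mulT, evP_cons, evP_cons, evP_mulT u v m c p, evC_mul, evM_mul]; ring

/-- product -/
def mulP : Po → Po → Po
  | [], _ => []
  | x :: p, q => addP (mulT x.1 x.2 q) (mulP p q)

theorem evP_mul (u v : ℂ) : ∀ p q : Po, evP u v (mulP p q) = evP u v p * evP u v q
  | [], q => by simp [mulP]
  | x :: p, q => by
    rw [mulP, evP_add, evP_mulT, evP_mul u v p, evP_cons]; ring

/-- multiple -/
def smP (c : Co) (p : Po) : Po := mulT (0, 0, 0, 0) c p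

theorem evP_sm (u v : ℂ) (c : Co) (p : Po) : evP u v (smP c p) = evC c * evP u v p := by
  rw [smP, evP_mulT]
  unfold evM
  simp

/-- power -/
def powP (p : Po) : ℕ → Po
  | 0 => [((0, 0, 0, 0), (1, 0))]
  | n + 1 => mulP p (powP p n)

theorem evP_pow (u v : ℂ) (p : Po) : ∀ n : ℕ, evP u v (powP p n) = evP u v p ^ n
  | 0 => by simp [powP, evC, evM]
  | n + 1 => by
    rw [powP, evP_mul, evP_pow u v p n, pow_succ]; ring

/-- conjugate -/
def cjP : Po → Po
  | [] => []
  | x :: p => ((x.1.2.1, x.1.1, x.1.2.2.2, x.1.2.2.1), (x.2.1, -x.2.2)) :: cjP p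

theorem evP_cj (u v : ℂ) : ∀ p : Po, evP u v (cjP p) = (starRingEnd ℂ) (evP u v p)
  | [] => by simp [cjP]
  | x :: p => by
    rw [cjP, evP_cons, evP_cons, evP_cj u v p, map_add, map_mul]
    have h1 : evC (x.2.1, -x.2.2) = (starRingEnd ℂ) (evC x.2) := by
      unfold evC
      rw [map_add, map_mul, s3_conj]
      simp only [map_intCast]
      push_cast
      ring
    have h2 : evM u v (x.1.2.1, x.1.1, x.1.2.2.2, x.1.2.2.1) = (starRingEnd ℂ) (evM u v x.1) := by
      unfold evM
      simp only [map_mul, map_pow, Complex.conj_conj]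
      ring
    rw [h1, h2]

/-- replaces `√-3` by `-√-3` -/
def twP : Po → Po
  | [] => []
  | x :: p => (x.1, (x.2.1, -x.2.2)) :: twP p

/-- coefficient of a monomial -/
def coef (p : Po) (m : Mo) : Co :=
  match p with
  | [] => (0, 0)
  | x :: p => if x.1 = m then addC x.2 (coef p m) else coef p m

/-- resonance -/
def res (m : Mo) : Bool := 3 * m.1 + 5 * m.2.2.1 == 3 * m.2.1 + 5 * m.2.2.2

/-- total degree -/
def dg (m : Mo) : ℕ := m.1 + m.2.1 + m.2.2.1 + m.2.2.2

/-- mean value over the period -/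
noncomputable def mean (F : ℝ → ℂ) : ℂ :=
  (1 / (2 * Real.pi) : ℂ) * ∫ t in (0 : ℝ)..(2 * Real.pi), F t

/-- `u = A e^{-3it}` -/
noncomputable def uu (A : ℂ) (t : ℝ) : ℂ := A * ee (-3 * t)
/-- `v = B e^{-5it}` -/
noncomputable def vv (B : ℂ) (t : ℝ) : ℂ := B * ee (-5 * t)

theorem conj_ee (t : ℝ) : (starRingEnd ℂ) (ee t) = ee (-t) := (ee_neg t).symm

theorem evM_uv (A B : ℂ) (m : Mo) (t : ℝ) : evM (uu A t) (vv B t) m =
    evM A B m * ee (((3 * (m.2.1 : ℤ) + 5 * (m.2.2.2 : ℤ) - 3 * (m.1 : ℤ) - 5 * (m.2.2.1 : ℤ) : ℤ) : ℝ) * t) := by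
  unfold evM uu vv
  simp only [map_mul, conj_ee, mul_pow, ee_pow]
  have e : ee (((3 * (m.2.1 : ℤ) + 5 * (m.2.2.2 : ℤ) - 3 * (m.1 : ℤ) - 5 * (m.2.2.1 : ℤ) : ℤ) : ℝ) * t) =
      ee ((m.1 : ℝ) * (-3 * t)) * ee ((m.2.1 : ℝ) * -(-3 * t)) * ee ((m.2.2.1 : ℝ) * (-5 * t))
        * ee ((m.2.2.2 : ℝ) * -(-5 * t)) := by
    rw [← ee_add, ← ee_add, ← ee_add]
    congr 1
    push_cast
    ring
  rw [e]
  ring

theorem cont_evM (A B : ℂ) (m : Mo) : Continuous fun t => evM (uu A t) (vv B t) m := by
  have h := continuous_ee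
  unfold evM uu vv
  fun_prop

theorem cont_evP (A B : ℂ) : ∀ p : Po, Continuous fun t => evP (uu A t) (vv B t) p
  | [] => by simp only [evP_nil]; exact continuous_const
  | x :: p => by
    simp only [evP_cons]
    exact (continuous_const.mul (cont_evM A B x.1)).add (cont_evP A B p)

theorem mean_add {F G : ℝ → ℂ} (hF : Continuous F) (hG : Continuous G) :
    mean (fun t => F t + G t) = mean F + mean G := by
  unfold mean
  rw [← mul_add]
  congr 1
  exact intervalIntegral.integral_add (hF.intervalIntegrable _ _) (hG.intervalIntegrable _ _)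

theorem mean_const_mul (c : ℂ) (F : ℝ → ℂ) : mean (fun t => c * F t) = c * mean F := by
  unfold mean
  rw [intervalIntegral.integral_const_mul]
  ring

theorem mean_evM (A B : ℂ) (m : Mo) : mean (fun t => evM (uu A t) (vv B t) m) =
    if res m = true then evM A B m else 0 := by
  simp_rw [evM_uv]
  rw [mean_const_mul]
  unfold mean
  rw [int_ee_z]
  by_cases h : res m = true
  · have h' := h
    unfold res at h'
    rw [beq_iff_eq] at h'
    rw [if_pos h, if_pos (by omega), mul_one]
  · have h' := h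
    unfold res at h'
    rw [beq_iff_eq] at h'
    rw [if_neg h, if_neg (by omega), mul_zero]

/-- the resonant part -/
def rs : Po → Po
  | [] => []
  | x :: p => if res x.1 then x :: rs p else rs p

theorem mean_evP (A B : ℂ) : ∀ p : Po, mean (fun t => evP (uu A t) (vv B t) p) = evP A B (rs p)
  | [] => by simp [rs, mean]
  | x :: p => by
    simp only [evP_cons]
    have h1 := mean_add (F := fun t => evC x.2 * evM (uu A t) (vv B t) x.1)
      (G := fun t => evP (uu A t) (vv B t) p)
      (continuous_const.mul (cont_evM A B x.1)) (cont_evP A B p)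
    rw [h1, mean_const_mul, mean_evM, mean_evP A B p, rs]
    split_ifs with h
    · rw [evP_cons]
    · ring

/-- the list of the coefficients of the monomials `ms` -/
def tab (p : Po) (ms : List Mo) : Po := ms.map fun m => (m, coef p m)

/-- removes the term `m` -/
def del (m : Mo) : Po → Po
  | [] => []
  | x :: p => if x.1 = m then del m p else x :: del m p

theorem evP_del (u v : ℂ) (m : Mo) : ∀ p : Po,
    evP u v p = evC (coef p m) * evM u v m + evP u v (del m p)
  | [] => by simp [coef, del, evC]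
  | x :: p => by
    rw [evP_cons, coef, del]
    split_ifs with h
    · rw [evP_del u v m p, evC_add, h]; ring
    · rw [evP_del u v m p, evP_cons]; ring

/-- removes all terms of the list -/
def dels : List Mo → Po → Po
  | [], p => p
  | m :: ms, p => dels ms (del m p)

/-- the table -/
def tb : List Mo → Po → Po
  | [], _ => []
  | m :: ms, p => (m, coef p m) :: tb ms (del m p)

theorem evP_tb (u v : ℂ) : ∀ (ms : List Mo) (p : Po), dels ms p = [] → evP u v p = evP u v (tb ms p)
  | [], p, h => by simp only [dels] at h; rw [h]; rfl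
  | m :: ms, p, h => by
    simp only [dels] at h
    rw [tb, evP_cons, ← evP_tb u v ms (del m p) h]
    exact evP_del u v m p

/-- the mean from the table: `hq` is proved by `decide +kernel` -/
theorem mean_tab (A B : ℂ) (p q : Po) (ms : List Mo) (h : dels ms (rs p) = []) (hq : tb ms (rs p) = q) :
    mean (fun t => evP (uu A t) (vv B t) p) = evP A B q := by
  rw [mean_evP, evP_tb A B ms (rs p) h, hq]

end Pool.Agent.Helper35.Cas
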