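import Pool.Agent.Helper35.RC.PhiNum

/-!
# Project RC, SHARP: `(1+ζ)^a conj((1+ζ)^b)`: even and odd parts with remainder, general real `a`, `b`

`Ph a b ζ = (1+ζ)^a conj ((1+ζ)^b)`, `pe a b ζ = (Ph a b ζ + Ph a b (-ζ))/2`, `po` the odd part.
`pe_rem`, `po_rem`: the Taylor polynomial through the degree `< K` with the error `G ‖ζ‖^K` for `‖ζ‖ ≤ 2/5`;
the constant is checked by `decide +kernel` (`chkE`).
-/

set_option autoImplicit false

open MeasureTheory Filter Metric Finset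

namespace Pool.Agent.Helper35.RC

/-- `(1+ζ)^a conj((1+ζ)^b)` -/
noncomputable def Ph (a b : ℝ) (ζ : ℂ) : ℂ := (1 + ζ) ^ (a : ℂ) * (starRingEnd ℂ) ((1 + ζ) ^ (b : ℂ))

/-- even and odd parts -/
noncomputable def pe (a b : ℝ) (ζ : ℂ) : ℂ := (Ph a b ζ + Ph a b (-ζ)) / 2
noncomputable def po (a b : ℝ) (ζ : ℂ) : ℂ := (Ph a b ζ - Ph a b (-ζ)) / 2

theorem phi_ph (n : ℤ) (ζ : ℂ) (h : ‖ζ‖ < 1) : Phi n ζ = Ph ((1 + n) / 2) ((1 - n) / 2) ζ := phi_eq n ζ h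

theorem ph_sum (a b : ℝ) (ζ : ℂ) (h : ‖ζ‖ < 1) :
    Summable (fun k : ℕ => ‖TT a b k ζ‖) ∧ ∑' k : ℕ, TT a b k ζ = Ph a b ζ := by
  have h' : ‖(starRingEnd ℂ) ζ‖ < 1 := by rwa [Complex.norm_conj]
  have s1 := summ_pow a ζ h
  have s2 := summ_pow b ((starRingEnd ℂ) ζ) h'
  set f : ℕ → ℂ := fun m => (cb a m : ℂ) * ζ ^ m with hf
  set g : ℕ → ℂ := fun m => (cb b m : ℂ) * (starRingEnd ℂ) ζ ^ m with hg
  have e : (fun k : ℕ => TT a b k ζ) = fun k => ∑ ij ∈ antidiagonal k, f ij.1 * g ij.2 := by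
    funext k
    unfold TT
    refine sum_congr rfl fun ij _ => ?_
    simp only [hf, hg]
    push_cast
    ring
  have k1 : Summable fun k => ‖∑ ij ∈ antidiagonal k, f ij.1 * g ij.2‖ :=
    summable_norm_sum_mul_antidiagonal_of_summable_norm s1 s2
  have k2 : (∑' m, f m) * (∑' m, g m) = ∑' k, ∑ ij ∈ antidiagonal k, f ij.1 * g ij.2 :=
    tsum_mul_tsum_eq_tsum_sum_antidiagonal_of_summable_norm s1 s2
  constructor
  · have e' : (fun k : ℕ => ‖TT a b k ζ‖) = fun k => ‖∑ ij ∈ antidiagonal k, f ij.1 * g ij.2‖ := by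
      funext k
      rw [congrFun e k]
    rw [e']
    exact k1
  · have e3 : ∑' k : ℕ, TT a b k ζ = ∑' k, ∑ ij ∈ antidiagonal k, f ij.1 * g ij.2 := by rw [e]
    rw [e3, ← k2, (hasSum_pow a ζ h).tsum_eq, (hasSum_pow b _ h').tsum_eq]
    unfold Ph
    congr 1
    have h4 : (1 + ζ).arg ≠ Real.pi :=
      (Complex.mem_slitPlane_iff_arg.1 (Complex.mem_slitPlane_of_norm_lt_one h)).1
    have h3 := Complex.conj_cpow (1 + ζ) ((b : ℝ) : ℂ) h4
    rw [map_add, map_one, Complex.conj_ofReal] at h3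
    exact h3

/-- general remainder: `E` a selection of the homogeneous parts, `F` its beginning -/
theorem sel_rem (a b ρ S : ℝ) (h0 : 0 < ρ) (h1 : ρ < 1)
    (hS : (∑' m : ℕ, |cb a m| * ρ ^ m) * (∑' m : ℕ, |cb b m| * ρ ^ m) ≤ S)
    (sel : ℕ → Prop) [DecidablePred sel] (K : ℕ) (Q : Finset ℕ) (hQ : ∀ k, sel k → K ≤ k → k ∉ Q)
    (ζ : ℂ) (hζ : ‖ζ‖ ≤ ρ) (v : ℂ) (hv : HasSum (fun k => if sel k then TT a b k ζ else 0) v) :
    ‖v - ∑ k ∈ (range K).filter sel, TT a b k ζ‖ ≤ (S - ∑ k ∈ Q, gg a b k * ρ ^ k) / ρ ^ K * ‖ζ‖ ^ K := by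
  set E : ℕ → ℂ := fun k => if sel k then TT a b k ζ else 0 with hE
  set F : Finset ℕ := range K with hF
  have hsub : HasSum (fun k => E k - if k ∈ F then E k else 0) (v - ∑ k ∈ F, E k) := by
    refine hv.sub ?_
    have h9 : HasSum (fun k => if k ∈ F then E k else 0) (∑ k ∈ F, if k ∈ F then E k else 0) :=
      hasSum_sum_of_ne_finset_zero (fun k hk => by simp [hk])
    have e9 : (∑ k ∈ F, if k ∈ F then E k else 0) = ∑ k ∈ F, E k :=
      sum_congr rfl fun k hk => by simp [hk]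
    rwa [e9] at h9
  have hFs : ∑ k ∈ F, E k = ∑ k ∈ (range K).filter sel, TT a b k ζ := by
    rw [sum_filter]
  rw [hFs] at hsub
  obtain ⟨sg, eg⟩ := gg_summ a b ρ h0.le h1
  have hgs : HasSum (fun k => gg a b k * ρ ^ k - if k ∈ Q then gg a b k * ρ ^ k else 0)
      (∑' k : ℕ, gg a b k * ρ ^ k - ∑ k ∈ Q, gg a b k * ρ ^ k) := by
    refine sg.hasSum.sub ?_
    have h9 : HasSum (fun k => if k ∈ Q then gg a b k * ρ ^ k else 0)
        (∑ k ∈ Q, if k ∈ Q then gg a b k * ρ ^ k else 0) :=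
      hasSum_sum_of_ne_finset_zero (fun k hk => by simp [hk])
    have e9 : (∑ k ∈ Q, if k ∈ Q then gg a b k * ρ ^ k else 0) = ∑ k ∈ Q, gg a b k * ρ ^ k :=
      sum_congr rfl fun k hk => by simp [hk]
    rwa [e9] at h9
  have hgs2 := hgs.mul_right ((‖ζ‖ / ρ) ^ K)
  have hq : ‖ζ‖ / ρ ≤ 1 := (div_le_one h0).2 hζ
  have hq0 : 0 ≤ ‖ζ‖ / ρ := by positivity
  have hb2 : ∀ k, ‖E k - (if k ∈ F then E k else 0)‖ ≤
      (gg a b k * ρ ^ k - if k ∈ Q then gg a b k * ρ ^ k else 0) * (‖ζ‖ / ρ) ^ K := by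
    intro k
    have hR : 0 ≤ (gg a b k * ρ ^ k - if k ∈ Q then gg a b k * ρ ^ k else 0) * (‖ζ‖ / ρ) ^ K := by
      apply mul_nonneg _ (by positivity)
      split_ifs
      · simp
      · have := gg_nonneg a b k
        simp only [sub_zero]
        positivity
    by_cases hk : sel k
    · by_cases hk8 : K ≤ k
      · have hkK := hQ k hk hk8
        have hkF : k ∉ F := by
          rw [hF, mem_range]; omega
        rw [if_neg hkF, if_neg hkK, sub_zero, sub_zero]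
        simp only [hE, hk, if_true]
        refine (TT_norm a b k ζ).trans ?_
        rw [mul_assoc]
        refine mul_le_mul_of_nonneg_left ?_ (gg_nonneg a b k)
        have e5 : ‖ζ‖ ^ k = ρ ^ k * (‖ζ‖ / ρ) ^ k := by
          rw [div_pow]; field_simp
        rw [e5]
        exact mul_le_mul_of_nonneg_left (pow_le_pow_of_le_one hq0 hq hk8) (by positivity)
      · have hkF : k ∈ F := by
          rw [hF, mem_range]; omega
        rw [if_pos hkF, sub_self, norm_zero]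
        exact hR
    · simp only [hE, hk, if_false]
      simp only [ite_self, sub_zero, norm_zero]
      exact hR
  have hfin : ‖v - ∑ k ∈ (range K).filter sel, TT a b k ζ‖ ≤
      (∑' k : ℕ, gg a b k * ρ ^ k - ∑ k ∈ Q, gg a b k * ρ ^ k) * (‖ζ‖ / ρ) ^ K := by
    rw [← hsub.tsum_eq]
    exact tsum_of_norm_bounded hgs2 hb2
  refine hfin.trans ?_
  rw [eg, div_pow]
  have h8 : (0 : ℝ) < ρ ^ K := by positivity
  rw [div_mul_eq_mul_div, ← mul_div_assoc]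
  gcongr

theorem pe_hasSum (a b : ℝ) (ζ : ℂ) (h : ‖ζ‖ < 1) :
    HasSum (fun k => if Even k then TT a b k ζ else 0) (pe a b ζ) := by
  obtain ⟨s1, e1⟩ := ph_sum a b ζ h
  obtain ⟨s2, e2⟩ := ph_sum a b (-ζ) (by rwa [norm_neg])
  have t1 := s1.of_norm.hasSum
  have t2 := s2.of_norm.hasSum
  rw [e1] at t1
  rw [e2] at t2
  have := (t1.add t2).div_const 2
  have e : (fun k => if Even k then TT a b k ζ else 0) = fun k => (TT a b k ζ + TT a b k (-ζ)) / 2 := by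
    funext k
    rw [TT_neg]
    by_cases hk : Even k
    · simp only [hk, if_true, hk.neg_one_pow]; ring
    · simp only [hk, if_false]
      rw [(Nat.not_even_iff_odd.1 hk).neg_one_pow]; ring
  rw [e]
  exact this

theorem po_hasSum (a b : ℝ) (ζ : ℂ) (h : ‖ζ‖ < 1) :
    HasSum (fun k => if Odd k then TT a b k ζ else 0) (po a b ζ) := by
  obtain ⟨s1, e1⟩ := ph_sum a b ζ h
  obtain ⟨s2, e2⟩ := ph_sum a b (-ζ) (by rwa [norm_neg])
  have t1 := s1.of_norm.hasSum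
  have t2 := s2.of_norm.hasSum
  rw [e1] at t1
  rw [e2] at t2
  have := (t1.sub t2).div_const 2
  have e : (fun k => if Odd k then TT a b k ζ else 0) = fun k => (TT a b k ζ - TT a b k (-ζ)) / 2 := by
    funext k
    rw [TT_neg]
    by_cases hk : Odd k
    · simp only [hk, if_true, hk.neg_one_pow]; ring
    · simp only [hk, if_false]
      rw [(Nat.not_odd_iff_even.1 hk).neg_one_pow]; ring
  rw [e]
  exact this

/-- the list of the exact terms which are subtracted from the majorant: all `k < K` and the wrong parity above -/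
def Qs (K : ℕ) : Finset ℕ := range K ∪ {K + 1, K + 3, K + 5, K + 7}

/-- check of the constant (`K` and the wanted degrees have the same parity) -/
def chkE (a b G : ℚ) (K : ℕ) : Bool :=
  decide (0 ≤ serQ b (2 / 5) (11 / 20) 14) && decide (0 ≤ serQ a (2 / 5) (11 / 20) 14) && decide (
  (serQ a (2 / 5) (11 / 20) 14 * serQ b (2 / 5) (11 / 20) 14
    - ∑ k ∈ Qs K, ggQ a b k * (2 / 5) ^ k) ≤ G * (2 / 5) ^ K)

theorem ser_ok (a : ℚ) (ha : |a| ≤ 11 / 2) :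
    ∑' m : ℕ, |cb (a : ℝ) m| * (2 / 5 : ℝ) ^ m ≤ ((serQ a (2 / 5) (11 / 20) 14 : ℚ) : ℝ) := by
  have e25 : ((2 / 5 : ℚ) : ℝ) = 2 / 5 := by norm_num
  have ha1 : (a : ℝ) ≤ 11 / 2 := by
    have : a ≤ 11 / 2 := (abs_le.1 ha).2
    have h := (Rat.cast_le (K := ℝ)).2 this
    push_cast at h; exact h
  have ha2 : -(11 / 2) ≤ (a : ℝ) := by
    have : -(11 / 2) ≤ a := (abs_le.1 ha).1
    have h := (Rat.cast_le (K := ℝ)).2 this
    push_cast at h; linarith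
  have sa := ser_le a (2 / 5) (11 / 20) 14 (by norm_num) (by norm_num) (by norm_num) (by
    intro m hm
    have hm' : (14 : ℝ) ≤ m := by exact_mod_cast hm
    rw [abs_of_nonpos (by linarith)]
    push_cast
    linarith)
  rw [e25] at sa
  exact sa

theorem const_ok (a b G : ℚ) (K : ℕ) (ha : |a| ≤ 11 / 2) (hb : |b| ≤ 11 / 2) (h : chkE a b G K = true) :
    ∃ S : ℝ, (∑' m : ℕ, |cb (a : ℝ) m| * (2 / 5 : ℝ) ^ m) * (∑' m : ℕ, |cb (b : ℝ) m| * (2 / 5 : ℝ) ^ m) ≤ S ∧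
      (S - ∑ k ∈ Qs K, gg a b k * (2 / 5 : ℝ) ^ k) / (2 / 5 : ℝ) ^ K ≤ G := by
  unfold chkE at h
  rw [Bool.and_eq_true, Bool.and_eq_true, decide_eq_true_eq, decide_eq_true_eq, decide_eq_true_eq] at h
  obtain ⟨⟨h0, h00⟩, h⟩ := h
  have sa := ser_ok a ha
  have sb := ser_ok b hb
  refine ⟨((serQ a (2 / 5) (11 / 20) 14 * serQ b (2 / 5) (11 / 20) 14 : ℚ) : ℝ), ?_, ?_⟩
  · push_cast at sa sb ⊢
    have hx : 0 ≤ ∑' m : ℕ, |cb (b : ℝ) m| * (2 / 5 : ℝ) ^ m := tsum_nonneg fun m => by positivity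
    have hy : 0 ≤ ∑' m : ℕ, |cb (a : ℝ) m| * (2 / 5 : ℝ) ^ m := tsum_nonneg fun m => by positivity
    exact mul_le_mul sa sb hx (hy.trans sa)
  · rw [div_le_iff₀ (by positivity)]
    have h' : ((serQ a (2 / 5) (11 / 20) 14 * serQ b (2 / 5) (11 / 20) 14
      - ∑ k ∈ Qs K, ggQ a b k * (2 / 5) ^ k : ℚ) : ℝ) ≤ ((G * (2 / 5) ^ K : ℚ) : ℝ) := by exact_mod_cast h
    refine le_trans (le_of_eq ?_) (h'.trans (le_of_eq ?_))
    · rw [Rat.cast_sub]
      congr 1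
      rw [Rat.cast_sum]
      refine sum_congr rfl fun k _ => ?_
      rw [gg_cast]
      push_cast
      ring
    · push_cast
      ring

/-- **even part** -/
theorem pe_rem (a b G : ℚ) (K : ℕ) (hK : Even K) (ha : |a| ≤ 11 / 2) (hb : |b| ≤ 11 / 2)
    (h : chkE a b G K = true) (ζ : ℂ) (hζ : ‖ζ‖ ≤ 2 / 5) :
    ‖pe a b ζ - ∑ k ∈ (range K).filter Even, TT a b k ζ‖ ≤ (G : ℝ) * ‖ζ‖ ^ K := by
  obtain ⟨S, hS, hG⟩ := const_ok a b G K ha hb h
  refine (sel_rem a b (2 / 5) S (by norm_num) (by norm_num) hS Even K (Qs K) ?_ ζ hζ _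
    (pe_hasSum a b ζ (by linarith))).trans (mul_le_mul_of_nonneg_right hG (by positivity))
  intro k hk hk8
  unfold Qs
  simp only [mem_union, mem_range, mem_insert, mem_singleton]
  rcases hk with ⟨r, hr⟩
  rcases hK with ⟨q, hq⟩
  omega

/-- **odd part** -/
theorem po_rem (a b G : ℚ) (K : ℕ) (hK : Odd K) (ha : |a| ≤ 11 / 2) (hb : |b| ≤ 11 / 2)
    (h : chkE a b G K = true) (ζ : ℂ) (hζ : ‖ζ‖ ≤ 2 / 5) :
    ‖po a b ζ - ∑ k ∈ (range K).filter Odd, TT a b k ζ‖ ≤ (G : ℝ) * ‖ζ‖ ^ K := by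
  obtain ⟨S, hS, hG⟩ := const_ok a b G K ha hb h
  refine (sel_rem a b (2 / 5) S (by norm_num) (by norm_num) hS Odd K (Qs K) ?_ ζ hζ _
    (po_hasSum a b ζ (by linarith))).trans (mul_le_mul_of_nonneg_right hG (by positivity))
  intro k hk hk8
  unfold Qs
  simp only [mem_union, mem_range, mem_insert, mem_singleton]
  rcases hk with ⟨r, hr⟩
  rcases hK with ⟨q, hq⟩
  omega

example (ζ : ℂ) (hζ : ‖ζ‖ ≤ 2 / 5) :
    ‖pe (7 / 2 : ℚ) (-7 / 2 : ℚ) ζ - ∑ k ∈ (range 6).filter Even, TT (7 / 2 : ℚ) (-7 / 2 : ℚ) k ζ‖ ≤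
      ((700 : ℚ) : ℝ) * ‖ζ‖ ^ 6 :=
  pe_rem (7 / 2) (-7 / 2) 700 6 (by decide) (by norm_num [abs_le]) (by norm_num [abs_le]) (by decide +kernel) ζ hζ

end Pool.Agent.Helper35.RC
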