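import Pool.Agent.Helper35.RC.Ser

/-!
# Project RC, SHARP: `|1+ζ| e^{i n arg(1+ζ)}` as a double power series, even part, remainder

`Phi n ζ = |1+ζ| ((1+ζ)/|1+ζ|)^n`; `TT n k ζ` is its homogeneous part of degree `k`:
`∑_{m+m'=k} binom((1+n)/2, m) binom((1-n)/2, m') ζ^m (conj ζ)^m'`.
-/

set_option autoImplicit false

open MeasureTheory Filter Metric Finset

namespace Pool.Agent.Helper35.RC

open Helper49.LT hiding sg

/-- `|1+ζ| e^{i n arg (1+ζ)}` -/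
noncomputable def Phi (n : ℤ) (ζ : ℂ) : ℂ := (‖1 + ζ‖ : ℂ) * ((1 + ζ) / (‖1 + ζ‖ : ℂ)) ^ n

/-- homogeneous part of the product of the two binomial series -/
noncomputable def TT (a b : ℝ) (k : ℕ) (ζ : ℂ) : ℂ :=
  ∑ ij ∈ antidiagonal k, ((cb a ij.1 * cb b ij.2 : ℝ) : ℂ) * (ζ ^ ij.1 * (starRingEnd ℂ) ζ ^ ij.2)

/-- absolute values of the coefficients -/
noncomputable def gg (a b : ℝ) (k : ℕ) : ℝ := ∑ ij ∈ antidiagonal k, |cb a ij.1| * |cb b ij.2|

theorem hasSum_pow (a : ℝ) (ζ : ℂ) (h : ‖ζ‖ < 1) :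
    HasSum (fun n : ℕ => (cb a n : ℂ) * ζ ^ n) ((1 + ζ) ^ (a : ℂ)) := by
  have h1 := (Complex.one_add_cpow_hasFPowerSeriesOnBall_zero (a := (a : ℂ))).hasSum
    (y := ζ) (by
      rw [← ENNReal.ofReal_one, Metric.eball_ofReal]
      rw [mem_ball_zero_iff]
      exact h)
  simp only [zero_add] at h1
  have e : (fun n : ℕ => (cb a n : ℂ) * ζ ^ n) =
      fun n => (binomialSeries ℂ (a : ℂ)) n fun _ => ζ := by
    funext n
    rw [binomialSeries_apply, ← choose_eq, Complex.ofReal_choose]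
    simp
  rw [e]
  exact h1

theorem summ_pow (a : ℝ) (ζ : ℂ) (h : ‖ζ‖ < 1) :
    Summable fun n : ℕ => ‖(cb a n : ℂ) * ζ ^ n‖ := by
  have := summable_cb ‖ζ‖ a (norm_nonneg _) h
  refine this.congr fun n => ?_
  rw [norm_mul, norm_pow, Complex.norm_real, Real.norm_eq_abs]

theorem cpow_ofReal (F : ℂ) (hF : F ≠ 0) (a : ℝ) :
    F ^ (a : ℂ) = ((‖F‖ ^ a : ℝ) : ℂ) * Complex.exp ((a * F.arg : ℝ) * Complex.I) := by
  rw [Complex.cpow_def_of_ne_zero hF, Complex.log, add_mul, Complex.exp_add]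
  congr 1
  · rw [Real.rpow_def_of_pos (norm_pos_iff.2 hF)]
    push_cast
    rfl
  · congr 1
    push_cast
    ring

theorem phi_eq (n : ℤ) (ζ : ℂ) (h : ‖ζ‖ < 1) :
    Phi n ζ = (1 + ζ) ^ (((1 + n) / 2 : ℝ) : ℂ) * (starRingEnd ℂ) ((1 + ζ) ^ (((1 - n) / 2 : ℝ) : ℂ)) := by
  have hF : 1 + ζ ≠ 0 := by
    intro h0
    have : ζ = -1 := by linear_combination h0
    rw [this] at h
    simp at h
  have hp : 0 < ‖1 + ζ‖ := norm_pos_iff.2 hF
  rw [cpow_ofReal _ hF, cpow_ofReal _ hF, map_mul, Complex.conj_ofReal, ← Complex.exp_conj]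
  have e1 : (starRingEnd ℂ) ((((1 - n) / 2 * (1 + ζ).arg : ℝ) : ℂ) * Complex.I) =
      -((((1 - n) / 2 * (1 + ζ).arg : ℝ) : ℂ) * Complex.I) := by
    rw [map_mul, Complex.conj_I, Complex.conj_ofReal]; ring
  rw [e1]
  have e2 : ((‖1 + ζ‖ ^ ((1 + n) / 2 : ℝ) : ℝ) : ℂ) * ((‖1 + ζ‖ ^ ((1 - n) / 2 : ℝ) : ℝ) : ℂ) = (‖1 + ζ‖ : ℂ) := by
    rw [← Complex.ofReal_mul, ← Real.rpow_add hp]
    rw [show ((1 + n) / 2 + (1 - n) / 2 : ℝ) = 1 by ring, Real.rpow_one]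
  have e3 : Complex.exp ((((1 + n) / 2 * (1 + ζ).arg : ℝ) : ℂ) * Complex.I) *
      Complex.exp (-((((1 - n) / 2 * (1 + ζ).arg : ℝ) : ℂ) * Complex.I)) =
      Complex.exp (((1 + ζ).arg : ℂ) * Complex.I) ^ n := by
    rw [← Complex.exp_add, ← Complex.exp_int_mul]
    congr 1
    push_cast
    ring
  have e4 : (1 + ζ) / (‖1 + ζ‖ : ℂ) = Complex.exp (((1 + ζ).arg : ℂ) * Complex.I) := by
    have h1 := Complex.norm_mul_exp_arg_mul_I (1 + ζ)
    have h2 : (‖1 + ζ‖ : ℂ) ≠ 0 := by exact_mod_cast hp.ne'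
    field_simp
    exact h1.symm
  unfold Phi
  rw [e4, ← e3, ← e2]
  ring

theorem phi_hasSum (n : ℤ) (ζ : ℂ) (h : ‖ζ‖ < 1) :
    Summable (fun k : ℕ => ‖TT ((1 + n) / 2) ((1 - n) / 2) k ζ‖) ∧
    ∑' k : ℕ, TT ((1 + n) / 2) ((1 - n) / 2) k ζ = Phi n ζ := by
  set a : ℝ := (1 + n) / 2
  set b : ℝ := (1 - n) / 2
  have h' : ‖(starRingEnd ℂ) ζ‖ < 1 := by rwa [Complex.norm_conj]
  have s1 := summ_pow a ζ h
  have s2 := summ_pow b ((starRingEnd ℂ) ζ) h'
  set f : ℕ → ℂ := fun m => (cb a m : ℂ) * ζ ^ m with hf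
  set g : ℕ → ℂ := fun m => (cb b m : ℂ) * (starRingEnd ℂ) ζ ^ m with hg
  have e : (fun k : ℕ => TT a b k ζ) = fun k => ∑ ij ∈ antidiagonal k, f ij.1 * g ij.2 := by
    funext k
    unfold TT
    refine sum_congr rfl fun ij _ => ?_
    simp only [hf, hg]
    push_cast
    ring
  have k1 : Summable fun k => ‖∑ ij ∈ antidiagonal k, f ij.1 * g ij.2‖ :=
    summable_norm_sum_mul_antidiagonal_of_summable_norm s1 s2
  have k2 : (∑' m, f m) * (∑' m, g m) = ∑' k, ∑ ij ∈ antidiagonal k, f ij.1 * g ij.2 :=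
    tsum_mul_tsum_eq_tsum_sum_antidiagonal_of_summable_norm s1 s2
  constructor
  · have e' : (fun k : ℕ => ‖TT a b k ζ‖) = fun k => ‖∑ ij ∈ antidiagonal k, f ij.1 * g ij.2‖ := by
      funext k
      rw [congrFun e k]
    rw [e']
    exact k1
  · have e3 : ∑' k : ℕ, TT a b k ζ = ∑' k, ∑ ij ∈ antidiagonal k, f ij.1 * g ij.2 := by rw [e]
    rw [e3, ← k2, (hasSum_pow a ζ h).tsum_eq, (hasSum_pow b _ h').tsum_eq, phi_eq n ζ h]
    congr 1
    have h4 : (1 + ζ).arg ≠ Real.pi :=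
      (Complex.mem_slitPlane_iff_arg.1 (Complex.mem_slitPlane_of_norm_lt_one h)).1
    have h3 := Complex.conj_cpow (1 + ζ) ((b : ℝ) : ℂ) h4
    rw [map_add, map_one, Complex.conj_ofReal] at h3
    exact h3

theorem TT_norm (a b : ℝ) (k : ℕ) (ζ : ℂ) : ‖TT a b k ζ‖ ≤ gg a b k * ‖ζ‖ ^ k := by
  unfold TT gg
  refine (norm_sum_le _ _).trans ?_
  rw [sum_mul]
  refine sum_le_sum fun ij hij => ?_
  rw [norm_mul, norm_mul, norm_pow, norm_pow, Complex.norm_conj, Complex.norm_real, Real.norm_eq_abs,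
    abs_mul, ← pow_add, mem_antidiagonal.1 hij]

theorem TT_neg (a b : ℝ) (k : ℕ) (ζ : ℂ) : TT a b k (-ζ) = (-1) ^ k * TT a b k ζ := by
  unfold TT
  rw [mul_sum]
  refine sum_congr rfl fun ij hij => ?_
  rw [map_neg, neg_pow ζ, neg_pow ((starRingEnd ℂ) ζ), ← mem_antidiagonal.1 hij, pow_add]
  ring

theorem gg_nonneg (a b : ℝ) (k : ℕ) : 0 ≤ gg a b k := by
  unfold gg
  exact sum_nonneg fun ij _ => by positivity

/-- the majorant series -/
theorem gg_summ (a b ρ : ℝ) (h0 : 0 ≤ ρ) (h1 : ρ < 1) :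
    Summable (fun k : ℕ => gg a b k * ρ ^ k) ∧ ∑' k : ℕ, gg a b k * ρ ^ k =
      (∑' m : ℕ, |cb a m| * ρ ^ m) * ∑' m : ℕ, |cb b m| * ρ ^ m := by
  have s1 := summable_cb ρ a h0 h1
  have s2 := summable_cb ρ b h0 h1
  have n1 : Summable fun m : ℕ => ‖|cb a m| * ρ ^ m‖ := by
    refine s1.congr fun m => ?_
    rw [Real.norm_of_nonneg (by positivity)]
  have n2 : Summable fun m : ℕ => ‖|cb b m| * ρ ^ m‖ := by
    refine s2.congr fun m => ?_
    rw [Real.norm_of_nonneg (by positivity)]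
  have e : ∀ k : ℕ, gg a b k * ρ ^ k = ∑ ij ∈ antidiagonal k, (|cb a ij.1| * ρ ^ ij.1) * (|cb b ij.2| * ρ ^ ij.2) := by
    intro k
    unfold gg
    rw [sum_mul]
    refine sum_congr rfl fun ij hij => ?_
    rw [← mem_antidiagonal.1 hij, pow_add]
    ring
  constructor
  · simp_rw [e]
    exact (summable_norm_sum_mul_antidiagonal_of_summable_norm n1 n2).of_norm
  · simp_rw [e]
    exact (tsum_mul_tsum_eq_tsum_sum_antidiagonal_of_summable_norm n1 n2).symm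

/-- bound of a power series by its beginning and the ratio -/
theorem series_le (c : ℕ → ℝ) (hc : ∀ m, 0 ≤ c m) (ρ θ : ℝ) (hρ : 0 ≤ ρ) (hθ0 : 0 ≤ θ) (hθ : θ < 1) (M : ℕ)
    (hr : ∀ m, M ≤ m → c (m + 1) * ρ ≤ θ * c m) :
    ∑' m : ℕ, c m * ρ ^ m ≤ ∑ m ∈ range M, c m * ρ ^ m + c M * ρ ^ M / (1 - θ) := by
  have hd : ∀ i : ℕ, c (i + M) * ρ ^ (i + M) ≤ (c M * ρ ^ M) * θ ^ i := by
    intro i
    induction i with
    | zero => simp
    | succ i ih =>
      have h1 := hr (i + M) (by omega)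
      calc c (i + 1 + M) * ρ ^ (i + 1 + M) = (c (i + M + 1) * ρ) * ρ ^ (i + M) := by
            rw [show i + 1 + M = i + M + 1 by ring, pow_succ]; ring
        _ ≤ (θ * c (i + M)) * ρ ^ (i + M) := mul_le_mul_of_nonneg_right h1 (by positivity)
        _ = θ * (c (i + M) * ρ ^ (i + M)) := by ring
        _ ≤ θ * ((c M * ρ ^ M) * θ ^ i) := mul_le_mul_of_nonneg_left ih hθ0
        _ = (c M * ρ ^ M) * θ ^ (i + 1) := by ring
  have hg : Summable fun i : ℕ => (c M * ρ ^ M) * θ ^ i :=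
    (summable_geometric_of_lt_one hθ0 hθ).mul_left _
  have hs1 : Summable fun i : ℕ => c (i + M) * ρ ^ (i + M) :=
    Summable.of_nonneg_of_le (fun i => mul_nonneg (hc _) (by positivity)) hd hg
  have hs : Summable fun m : ℕ => c m * ρ ^ m := (summable_nat_add_iff M).1 hs1
  rw [← hs.sum_add_tsum_nat_add M]
  gcongr
  calc ∑' i : ℕ, c (i + M) * ρ ^ (i + M) ≤ ∑' i : ℕ, (c M * ρ ^ M) * θ ^ i := hs1.tsum_le_tsum hd hg
    _ = c M * ρ ^ M / (1 - θ) := by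
      rw [tsum_mul_left, tsum_geometric_of_lt_one hθ0 hθ, div_eq_mul_inv]

/-- **even part with remainder**: exact through the degree 6 -/
theorem phi_even (n : ℤ) (ρ S : ℝ) (h0 : 0 < ρ) (h1 : ρ < 1)
    (hS : (∑' m : ℕ, |cb ((1 + n) / 2) m| * ρ ^ m) * (∑' m : ℕ, |cb ((1 - n) / 2) m| * ρ ^ m) ≤ S)
    (K : Finset ℕ) (hK : ∀ k, Even k → 8 ≤ k → k ∉ K) (ζ : ℂ) (hζ : ‖ζ‖ ≤ ρ) :
    ‖(Phi n ζ + Phi n (-ζ)) / 2 - (TT ((1 + n) / 2) ((1 - n) / 2) 0 ζ + TT ((1 + n) / 2) ((1 - n) / 2) 2 ζ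
      + TT ((1 + n) / 2) ((1 - n) / 2) 4 ζ + TT ((1 + n) / 2) ((1 - n) / 2) 6 ζ)‖
      ≤ (S - ∑ k ∈ K, gg ((1 + n) / 2) ((1 - n) / 2) k * ρ ^ k) / ρ ^ 8 * ‖ζ‖ ^ 8 := by
  set a : ℝ := (1 + n) / 2 with ha
  set b : ℝ := (1 - n) / 2 with hb
  have hz1 : ‖ζ‖ < 1 := lt_of_le_of_lt hζ h1
  have hz2 : ‖-ζ‖ < 1 := by rwa [norm_neg]
  obtain ⟨s1, e1⟩ := phi_hasSum n ζ hz1
  obtain ⟨s2, e2⟩ := phi_hasSum n (-ζ) hz2
  rw [← ha, ← hb] at s1 e1 s2 e2
  -- the even part as a series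
  set E : ℕ → ℂ := fun k => if Even k then TT a b k ζ else 0 with hE
  have eE : ∀ k, E k = (TT a b k ζ + TT a b k (-ζ)) / 2 := by
    intro k
    rw [TT_neg, hE]
    by_cases hk : Even k
    · simp only [hk, if_true, hk.neg_one_pow]; ring
    · simp only [hk, if_false]
      rw [(Nat.not_even_iff_odd.1 hk).neg_one_pow]; ring
  have hsE : HasSum E ((Phi n ζ + Phi n (-ζ)) / 2) := by
    have t1 := s1.of_norm.hasSum
    have t2 := s2.of_norm.hasSum
    rw [e1] at t1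
    rw [e2] at t2
    have := (t1.add t2).div_const 2
    have e : E = fun k => (TT a b k ζ + TT a b k (-ζ)) / 2 := funext eE
    rw [e]
    exact this
  -- subtract the beginning
  set F : Finset ℕ := {0, 2, 4, 6} with hF
  have hsub : HasSum (fun k => E k - if k ∈ F then E k else 0) ((Phi n ζ + Phi n (-ζ)) / 2 - ∑ k ∈ F, E k) := by
    refine hsE.sub ?_
    have h9 : HasSum (fun k => if k ∈ F then E k else 0) (∑ k ∈ F, if k ∈ F then E k else 0) :=
      hasSum_sum_of_ne_finset_zero (fun k hk => by simp [hk])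
    have e9 : (∑ k ∈ F, if k ∈ F then E k else 0) = ∑ k ∈ F, E k :=
      sum_congr rfl fun k hk => by simp [hk]
    rwa [e9] at h9
  have hFs : ∑ k ∈ F, E k = TT a b 0 ζ + TT a b 2 ζ + TT a b 4 ζ + TT a b 6 ζ := by
    rw [hF, sum_insert (by decide), sum_insert (by decide), sum_insert (by decide), sum_singleton]
    simp only [hE]
    rw [if_pos (by decide), if_pos (by decide), if_pos (by decide), if_pos (by decide)]
    ring
  rw [hFs] at hsub
  -- the majorant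
  obtain ⟨sg, eg⟩ := gg_summ a b ρ h0.le h1
  have hgs : HasSum (fun k => gg a b k * ρ ^ k - if k ∈ K then gg a b k * ρ ^ k else 0)
      (∑' k : ℕ, gg a b k * ρ ^ k - ∑ k ∈ K, gg a b k * ρ ^ k) := by
    refine sg.hasSum.sub ?_
    have h9 : HasSum (fun k => if k ∈ K then gg a b k * ρ ^ k else 0)
        (∑ k ∈ K, if k ∈ K then gg a b k * ρ ^ k else 0) :=
      hasSum_sum_of_ne_finset_zero (fun k hk => by simp [hk])
    have e9 : (∑ k ∈ K, if k ∈ K then gg a b k * ρ ^ k else 0) = ∑ k ∈ K, gg a b k * ρ ^ k :=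
      sum_congr rfl fun k hk => by simp [hk]
    rwa [e9] at h9
  have hgs2 := hgs.mul_right ((‖ζ‖ / ρ) ^ 8)
  have hq : ‖ζ‖ / ρ ≤ 1 := (div_le_one h0).2 hζ
  have hq0 : 0 ≤ ‖ζ‖ / ρ := by positivity
  have hb2 : ∀ k, ‖E k - (if k ∈ F then E k else 0)‖ ≤
      (gg a b k * ρ ^ k - if k ∈ K then gg a b k * ρ ^ k else 0) * (‖ζ‖ / ρ) ^ 8 := by
    intro k
    have hR : 0 ≤ (gg a b k * ρ ^ k - if k ∈ K then gg a b k * ρ ^ k else 0) * (‖ζ‖ / ρ) ^ 8 := by
      apply mul_nonneg _ (by positivity)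
      split_ifs
      · simp
      · have := gg_nonneg a b k
        simp only [sub_zero]
        positivity
    by_cases hk : Even k
    · by_cases hk8 : 8 ≤ k
      · have hkK := hK k hk hk8
        have hkF : k ∉ F := by
          rw [hF]
          simp only [mem_insert, mem_singleton]
          omega
        rw [if_neg hkF, if_neg hkK, sub_zero, sub_zero]
        simp only [hE, hk, if_true]
        refine (TT_norm a b k ζ).trans ?_
        rw [mul_assoc]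
        refine mul_le_mul_of_nonneg_left ?_ (gg_nonneg a b k)
        have e5 : ‖ζ‖ ^ k = ρ ^ k * (‖ζ‖ / ρ) ^ k := by
          rw [div_pow]; field_simp
        rw [e5]
        exact mul_le_mul_of_nonneg_left (pow_le_pow_of_le_one hq0 hq hk8) (by positivity)
      · have hkF : k ∈ F := by
          rw [hF]
          simp only [mem_insert, mem_singleton]
          rcases hk with ⟨r, hr⟩
          omega
        rw [if_pos hkF, sub_self, norm_zero]
        exact hR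
    · have hkF : k ∉ F := by
        rw [hF]
        simp only [mem_insert, mem_singleton]
        intro h
        apply hk
        rcases h with h | h | h | h <;> rw [h] <;> decide
      rw [if_neg hkF, sub_zero]
      simp only [hE, hk, if_false, norm_zero]
      exact hR
  have hfin : ‖(Phi n ζ + Phi n (-ζ)) / 2 - (TT a b 0 ζ + TT a b 2 ζ + TT a b 4 ζ + TT a b 6 ζ)‖ ≤
      (∑' k : ℕ, gg a b k * ρ ^ k - ∑ k ∈ K, gg a b k * ρ ^ k) * (‖ζ‖ / ρ) ^ 8 := by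
    rw [← hsub.tsum_eq]
    exact tsum_of_norm_bounded hgs2 hb2
  refine hfin.trans ?_
  rw [eg, div_pow]
  have h8 : (0 : ℝ) < ρ ^ 8 := by positivity
  rw [div_mul_eq_mul_div, ← mul_div_assoc]
  gcongr

end Pool.Agent.Helper35.RC
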