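import Pool.Agent.Helper35.RC.Phi

/-!
# Project RC, SHARP: explicit remainder constants for `Phi n`, `n = 0, 2, 4, 6, 8, 10`, `‖ζ‖ ≤ 2/5`
-/

set_option autoImplicit false

open MeasureTheory Filter Metric Finset

namespace Pool.Agent.Helper35.RC

/-- rational binomial coefficients -/
def cbQ (a : ℚ) : ℕ → ℚ
  | 0 => 1
  | n + 1 => cbQ a n * (a - n) / (n + 1)

theorem cb_cast (a : ℚ) (n : ℕ) : cb (a : ℝ) n = (cbQ a n : ℝ) := by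
  induction n with
  | zero => simp [cbQ]
  | succ n ih => rw [cb_succ, cbQ, ih]; push_cast; ring

/-- rational version of `gg` as a sum over a list -/
def ggQ (a b : ℚ) (k : ℕ) : ℚ := ∑ i ∈ range (k + 1), |cbQ a i| * |cbQ b (k - i)|

theorem gg_cast (a b : ℚ) (k : ℕ) : gg (a : ℝ) (b : ℝ) k = (ggQ a b k : ℝ) := by
  unfold gg ggQ
  rw [Nat.sum_antidiagonal_eq_sum_range_succ_mk]
  push_cast
  refine sum_congr rfl fun i _ => ?_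
  simp only [cb_cast]

/-- partial sum with the geometric bound of the rest -/
def serQ (a ρ θ : ℚ) (M : ℕ) : ℚ := ∑ m ∈ range M, |cbQ a m| * ρ ^ m + |cbQ a M| * ρ ^ M / (1 - θ)

theorem ser_le (a ρ θ : ℚ) (M : ℕ) (hρ : 0 ≤ ρ) (hθ0 : 0 ≤ θ) (hθ : θ < 1)
    (hr : ∀ m : ℕ, M ≤ m → |(a : ℝ) - m| * ρ ≤ θ * ((m : ℝ) + 1)) :
    ∑' m : ℕ, |cb (a : ℝ) m| * (ρ : ℝ) ^ m ≤ (serQ a ρ θ M : ℝ) := by
  have h := series_le (fun m => |cb (a : ℝ) m|) (fun m => abs_nonneg _) ρ θ (by exact_mod_cast hρ)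
    (by exact_mod_cast hθ0) (by exact_mod_cast hθ) M (by
      intro m hm
      show |cb (a : ℝ) (m + 1)| * (ρ : ℝ) ≤ θ * |cb (a : ℝ) m|
      rw [cb_succ, abs_div, abs_mul]
      have h1 : (0 : ℝ) < (m : ℝ) + 1 := by positivity
      rw [abs_of_pos h1, div_mul_eq_mul_div, div_le_iff₀ h1]
      have h2 := hr m hm
      have h3 := abs_nonneg (cb (a : ℝ) m)
      nlinarith)
  refine h.trans (le_of_eq ?_)
  unfold serQ
  push_cast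
  simp only [cb_cast]

/-- the check of the constant -/
def chkG (a b G : ℚ) : Bool :=
  decide (0 ≤ serQ b (2 / 5) (51 / 100) 12) && decide (
  (serQ a (2 / 5) (51 / 100) 12 * serQ b (2 / 5) (51 / 100) 12
    - ∑ k ∈ ({0, 1, 2, 3, 4, 5, 6, 7, 9, 11, 13, 15} : Finset ℕ), ggQ a b k * (2 / 5) ^ k) ≤ G * (2 / 5) ^ 8)

theorem phi_even_G (n : ℤ) (a b G : ℚ) (ha : a = (1 + n) / 2) (hb : b = (1 - n) / 2)
    (hn0 : 0 ≤ n) (hn : n ≤ 10) (h : chkG a b G = true) (ζ : ℂ) (hζ : ‖ζ‖ ≤ 2 / 5) :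
    ‖(Phi n ζ + Phi n (-ζ)) / 2 - (TT ((1 + n) / 2) ((1 - n) / 2) 0 ζ + TT ((1 + n) / 2) ((1 - n) / 2) 2 ζ
      + TT ((1 + n) / 2) ((1 - n) / 2) 4 ζ + TT ((1 + n) / 2) ((1 - n) / 2) 6 ζ)‖ ≤ (G : ℝ) * ‖ζ‖ ^ 8 := by
  have hn0' : (0 : ℝ) ≤ n := by exact_mod_cast hn0
  have hn' : (n : ℝ) ≤ 10 := by exact_mod_cast hn
  have ea : ((a : ℚ) : ℝ) = (1 + n) / 2 := by rw [ha]; push_cast; ring
  have eb : ((b : ℚ) : ℝ) = (1 - n) / 2 := by rw [hb]; push_cast; ring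
  unfold chkG at h
  rw [Bool.and_eq_true, decide_eq_true_eq, decide_eq_true_eq] at h
  obtain ⟨h0, h⟩ := h
  have e25 : ((2 / 5 : ℚ) : ℝ) = 2 / 5 := by norm_num
  have sa := ser_le a (2 / 5) (51 / 100) 12 (by norm_num) (by norm_num) (by norm_num) (by
    intro m hm
    have hm' : (12 : ℝ) ≤ m := by exact_mod_cast hm
    rw [ea, abs_of_nonpos (by linarith)]
    push_cast
    linarith)
  have sb := ser_le b (2 / 5) (51 / 100) 12 (by norm_num) (by norm_num) (by norm_num) (by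
    intro m hm
    have hm' : (12 : ℝ) ≤ m := by exact_mod_cast hm
    rw [eb, abs_of_nonpos (by linarith)]
    push_cast
    linarith)
  rw [e25] at sa sb
  have hS : (∑' m : ℕ, |cb ((1 + n) / 2) m| * (2 / 5 : ℝ) ^ m) * (∑' m : ℕ, |cb ((1 - n) / 2) m| * (2 / 5 : ℝ) ^ m)
      ≤ ((serQ a (2 / 5) (51 / 100) 12 * serQ b (2 / 5) (51 / 100) 12 : ℚ) : ℝ) := by
    rw [ea] at sa
    rw [eb] at sb
    push_cast at sa sb ⊢
    have hx : 0 ≤ ∑' m : ℕ, |cb ((1 - n : ℝ) / 2) m| * (2 / 5 : ℝ) ^ m := tsum_nonneg fun m => by positivity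
    have hy : 0 ≤ ∑' m : ℕ, |cb ((1 + n : ℝ) / 2) m| * (2 / 5 : ℝ) ^ m := tsum_nonneg fun m => by positivity
    exact mul_le_mul sa sb hx (hy.trans sa)
  have hmain := phi_even n (2 / 5) _ (by norm_num) (by norm_num) hS
    ({0, 1, 2, 3, 4, 5, 6, 7, 9, 11, 13, 15} : Finset ℕ) (by
      intro k hk hk8
      simp only [mem_insert, mem_singleton]
      rcases hk with ⟨r, hr⟩
      omega) ζ hζ
  refine hmain.trans (mul_le_mul_of_nonneg_right ?_ (by positivity))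
  rw [div_le_iff₀ (by norm_num)]
  have h' : ((serQ a (2 / 5) (51 / 100) 12 * serQ b (2 / 5) (51 / 100) 12
    - ∑ k ∈ ({0, 1, 2, 3, 4, 5, 6, 7, 9, 11, 13, 15} : Finset ℕ), ggQ a b k * (2 / 5) ^ k : ℚ) : ℝ) ≤
      ((G * (2 / 5) ^ 8 : ℚ) : ℝ) := by exact_mod_cast h
  refine le_trans (le_of_eq ?_) (h'.trans (le_of_eq ?_))
  · rw [Rat.cast_sub]
    congr 1
    rw [Rat.cast_sum]
    refine sum_congr rfl fun k _ => ?_
    rw [← ea, ← eb, gg_cast]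
    push_cast
    ring
  · push_cast
    ring

theorem phi0_even (ζ : ℂ) (hζ : ‖ζ‖ ≤ 2 / 5) :
    ‖(Phi 0 ζ + Phi 0 (-ζ)) / 2 - (TT (1 / 2) (1 / 2) 0 ζ + TT (1 / 2) (1 / 2) 2 ζ
      + TT (1 / 2) (1 / 2) 4 ζ + TT (1 / 2) (1 / 2) 6 ζ)‖ ≤ 1 / 8 * ‖ζ‖ ^ 8 := by
  have := phi_even_G 0 (1 / 2) (1 / 2) (1 / 8) (by norm_num) (by norm_num) (by norm_num) (by norm_num)
    (by decide +kernel) ζ hζ
  convert this using 3 <;> norm_num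

theorem phi2_even (ζ : ℂ) (hζ : ‖ζ‖ ≤ 2 / 5) :
    ‖(Phi 2 ζ + Phi 2 (-ζ)) / 2 - (TT (3 / 2) (-1 / 2) 0 ζ + TT (3 / 2) (-1 / 2) 2 ζ
      + TT (3 / 2) (-1 / 2) 4 ζ + TT (3 / 2) (-1 / 2) 6 ζ)‖ ≤ 1 * ‖ζ‖ ^ 8 := by
  have := phi_even_G 2 (3 / 2) (-1 / 2) 1 (by norm_num) (by norm_num) (by norm_num) (by norm_num)
    (by decide +kernel) ζ hζ
  convert this using 3 <;> norm_num

theorem phi6_even (ζ : ℂ) (hζ : ‖ζ‖ ≤ 2 / 5) :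
    ‖(Phi 6 ζ + Phi 6 (-ζ)) / 2 - (TT (7 / 2) (-5 / 2) 0 ζ + TT (7 / 2) (-5 / 2) 2 ζ
      + TT (7 / 2) (-5 / 2) 4 ζ + TT (7 / 2) (-5 / 2) 6 ζ)‖ ≤ 240 * ‖ζ‖ ^ 8 := by
  have := phi_even_G 6 (7 / 2) (-5 / 2) 240 (by norm_num) (by norm_num) (by norm_num) (by norm_num)
    (by decide +kernel) ζ hζ
  convert this using 3 <;> norm_num

theorem phi8_even (ζ : ℂ) (hζ : ‖ζ‖ ≤ 2 / 5) :
    ‖(Phi 8 ζ + Phi 8 (-ζ)) / 2 - (TT (9 / 2) (-7 / 2) 0 ζ + TT (9 / 2) (-7 / 2) 2 ζ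
      + TT (9 / 2) (-7 / 2) 4 ζ + TT (9 / 2) (-7 / 2) 6 ζ)‖ ≤ 1550 * ‖ζ‖ ^ 8 := by
  have := phi_even_G 8 (9 / 2) (-7 / 2) 1550 (by norm_num) (by norm_num) (by norm_num) (by norm_num)
    (by decide +kernel) ζ hζ
  convert this using 3 <;> norm_num

theorem phi10_even (ζ : ℂ) (hζ : ‖ζ‖ ≤ 2 / 5) :
    ‖(Phi 10 ζ + Phi 10 (-ζ)) / 2 - (TT (11 / 2) (-9 / 2) 0 ζ + TT (11 / 2) (-9 / 2) 2 ζ
      + TT (11 / 2) (-9 / 2) 4 ζ + TT (11 / 2) (-9 / 2) 6 ζ)‖ ≤ 7600 * ‖ζ‖ ^ 8 := by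
  have := phi_even_G 10 (11 / 2) (-9 / 2) 7600 (by norm_num) (by norm_num) (by norm_num) (by norm_num)
    (by decide +kernel) ζ hζ
  convert this using 3 <;> norm_num

end Pool.Agent.Helper35.RC
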