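import Pool.Agent.Helper87.RC.M_BIL

/-!
# Project RC, SHARP: Fourier coefficients of `(1 + A e^{iθ})^a conj((1 + A e^{iθ})^b)`
-/

set_option autoImplicit false

open MeasureTheory Set Filter Metric

namespace Pool.Agent.Helper35.RC

open Helper49.LT hiding sg
open Helper87.RC (BM pars pars2 fc_eq fc_add fc_cmul fc_conj)
open Helper56.RC (fc)

/-- binomial coefficients -/
noncomputable def cb (a : ℝ) : ℕ → ℝ
  | 0 => 1
  | n + 1 => cb a n * (a - n) / (n + 1)

@[simp] theorem cb_zero (a : ℝ) : cb a 0 = 1 := rfl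
theorem cb_succ (a : ℝ) (n : ℕ) : cb a (n + 1) = cb a n * (a - n) / (n + 1) := rfl

theorem choose_eq (a : ℝ) (n : ℕ) : Ring.choose a n = cb a n := by
  induction n with
  | zero => simp
  | succ n ih =>
    rw [cb_succ, ← ih, Ring.choose_eq_smul, Ring.choose_eq_smul, descPochhammer_succ_right,
      Polynomial.smeval_mul]
    have hs : ((Polynomial.X - (n : Polynomial ℤ)).smeval a : ℝ) = a - n := by
      rw [Polynomial.smeval_sub, Polynomial.smeval_X, Polynomial.smeval_natCast]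
      simp
    rw [hs, Nat.factorial_succ]
    simp only [smul_eq_mul]
    push_cast
    have h1 : ((n : ℝ) + 1) ≠ 0 := by positivity
    have h2 : (n.factorial : ℝ) ≠ 0 := by positivity
    field_simp

/-- the function -/
noncomputable def gp (A a : ℝ) (θ : ℝ) : ℂ := (1 + (A : ℂ) * ee θ) ^ (a : ℂ)

theorem norm_Aee (A θ : ℝ) (hA : 0 ≤ A) : ‖(A : ℂ) * ee θ‖ = A := by
  rw [norm_mul, norm_ee, mul_one, Complex.norm_real, Real.norm_of_nonneg hA]

theorem hasSum_gp (A a θ : ℝ) (hA : 0 ≤ A) (hA1 : A < 1) :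
    HasSum (fun n : ℕ => (cb a n : ℂ) * ((A : ℂ) * ee θ) ^ n) (gp A a θ) := by
  have h := (Complex.one_add_cpow_hasFPowerSeriesOnBall_zero (a := (a : ℂ))).hasSum
    (y := (A : ℂ) * ee θ) (by
      rw [← ENNReal.ofReal_one, Metric.eball_ofReal]
      rw [mem_ball_zero_iff, norm_Aee A θ hA]
      exact hA1)
  simp only [zero_add] at h
  unfold gp
  have e : (fun n : ℕ => (cb a n : ℂ) * ((A : ℂ) * ee θ) ^ n) =
      fun n => (binomialSeries ℂ (a : ℂ)) n fun _ => (A : ℂ) * ee θ := by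
    funext n
    rw [binomialSeries_apply, ← choose_eq, Complex.ofReal_choose]
    simp
  rw [e]
  exact h

theorem summable_cb (A a : ℝ) (hA : 0 ≤ A) (hA1 : A < 1) :
    Summable fun n : ℕ => |cb a n| * A ^ n := by
  -- choose a larger radius
  obtain ⟨B, hAB, hB1⟩ := exists_between hA1
  have hB : 0 ≤ B := hA.trans hAB.le
  have h := (hasSum_gp B a 0 hB hB1).summable
  have h2 : Tendsto (fun n : ℕ => ‖(cb a n : ℂ) * ((B : ℂ) * ee 0) ^ n‖) atTop (nhds 0) := by
    have := h.tendsto_atTop_zero.norm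
    simpa using this
  have h3 : ∀ n : ℕ, ‖(cb a n : ℂ) * ((B : ℂ) * ee 0) ^ n‖ = |cb a n| * B ^ n := by
    intro n
    rw [norm_mul, norm_pow, norm_Aee B 0 hB, Complex.norm_real, Real.norm_eq_abs]
  simp_rw [h3] at h2
  have h4 : ∀ᶠ n : ℕ in atTop, |cb a n| * B ^ n ≤ 1 := by
    have := h2.eventually (gt_mem_nhds (show (0 : ℝ) < 1 by norm_num))
    exact this.mono fun n hn => hn.le
  have hBpos : 0 < B := lt_of_le_of_lt hA hAB
  have hr : A / B < 1 := (div_lt_one hBpos).2 hAB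
  refine Summable.of_norm_bounded_eventually_nat (g := fun n => (A / B) ^ n)
    (summable_geometric_of_lt_one (by positivity) hr) ?_
  filter_upwards [h4] with n hn
  rw [Real.norm_of_nonneg (by positivity), div_pow, le_div_iff₀ (by positivity)]
  calc |cb a n| * A ^ n * B ^ n = (|cb a n| * B ^ n) * A ^ n := by ring
    _ ≤ 1 * A ^ n := mul_le_mul_of_nonneg_right hn (by positivity)
    _ = A ^ n := one_mul _

theorem gp_bdd (A a : ℝ) (hA : 0 ≤ A) (hA1 : A < 1) (θ : ℝ) :
    ‖gp A a θ‖ ≤ ∑' n : ℕ, |cb a n| * A ^ n := by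
  have h := hasSum_gp A a θ hA hA1
  have e : ∀ n : ℕ, ‖(cb a n : ℂ) * ((A : ℂ) * ee θ) ^ n‖ = |cb a n| * A ^ n := by
    intro n
    rw [norm_mul, norm_pow, norm_Aee A θ hA, Complex.norm_real, Real.norm_eq_abs]
  rw [← h.tsum_eq]
  refine (norm_tsum_le_tsum_norm ?_).trans (le_of_eq ?_)
  · simp_rw [e]; exact summable_cb A a hA hA1
  · simp_rw [e]

theorem gp_meas (A a : ℝ) : Measurable (gp A a) := by
  unfold gp
  have h1 : Measurable fun θ : ℝ => (1 + (A : ℂ) * ee θ) :=
    measurable_const.add (measurable_const.mul continuous_ee.measurable)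
  exact h1.pow_const _

theorem bm_gp (A a : ℝ) (hA : 0 ≤ A) (hA1 : A < 1) : BM (gp A a) (∑' n : ℕ, |cb a n| * A ^ n) :=
  ⟨gp_meas A a, gp_bdd A a hA hA1⟩

theorem ee_pow (θ : ℝ) (n : ℕ) : ee θ ^ n = ee ((n : ℝ) * θ) := by
  unfold ee
  rw [← Complex.exp_nat_mul]
  congr 1
  push_cast
  ring

theorem int_ee_z (k : ℤ) : (1 / (2 * Real.pi) : ℂ) * ∫ t in (0 : ℝ)..(2 * Real.pi), ee ((k : ℝ) * t) =
    if k = 0 then 1 else 0 := by
  have hpi : (Real.pi : ℂ) ≠ 0 := by exact_mod_cast Real.pi_ne_zero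
  by_cases hk : k = 0
  · subst hk
    simp only [Int.cast_zero, zero_mul, if_true]
    have : ee 0 = 1 := by unfold ee; simp
    rw [this]
    simp only [intervalIntegral.integral_const, sub_zero, Complex.real_smul]
    push_cast
    field_simp
  · rw [if_neg hk]
    have hk' : (k : ℂ) * Complex.I ≠ 0 := mul_ne_zero (by exact_mod_cast hk) Complex.I_ne_zero
    have e : ∀ t : ℝ, ee ((k : ℝ) * t) = Complex.exp (((k : ℂ) * Complex.I) * t) := by
      intro t
      unfold ee
      congr 1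
      push_cast
      ring
    simp_rw [e]
    rw [integral_exp_mul_complex hk']
    have h1 : Complex.exp ((k : ℂ) * Complex.I * ((2 * Real.pi : ℝ) : ℂ)) = 1 := by
      rw [show (k : ℂ) * Complex.I * ((2 * Real.pi : ℝ) : ℂ) = (k : ℂ) * (2 * Real.pi * Complex.I) by
        push_cast; ring]
      exact Complex.exp_int_mul_two_pi_mul_I k
    rw [h1]
    simp

/-- the Fourier coefficients of `gp` -/
theorem fc_gp (A a : ℝ) (hA : 0 ≤ A) (hA1 : A < 1) (n : ℤ) :
    fc (gp A a) n = if 0 ≤ n then ((cb a n.toNat * A ^ n.toNat : ℝ) : ℂ) else 0 := by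
  unfold fc
  have h1 : ∀ j : ℕ, Continuous fun t : ℝ => (cb a j : ℂ) * ((A : ℂ) * ee t) ^ j * ee (-((n : ℝ) * t)) := by
    intro j
    have := continuous_ee
    fun_prop
  have hS := summable_cb A a hA hA1
  have hsum := intervalIntegral.hasSum_integral_of_dominated_convergence
    (μ := volume) (a := (0 : ℝ)) (b := 2 * Real.pi) (fun (j : ℕ) (_ : ℝ) => |cb a j| * A ^ j)
    (F := fun j t => (cb a j : ℂ) * ((A : ℂ) * ee t) ^ j * ee (-((n : ℝ) * t)))
    (f := fun t => gp A a t * ee (-((n : ℝ) * t)))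
    (fun j => (h1 j).aestronglyMeasurable)
    (fun j => Filter.Eventually.of_forall fun t _ => by
      rw [norm_mul, norm_mul, norm_pow, norm_Aee A t hA, Complex.norm_real, Real.norm_eq_abs,
        norm_ee, mul_one])
    (Filter.Eventually.of_forall fun t _ => hS)
    (intervalIntegrable_const)
    (Filter.Eventually.of_forall fun t _ => (hasSum_gp A a t hA hA1).mul_right _)
  have h2 := hsum.mul_left (1 / (2 * Real.pi) : ℂ)
  have e : ∀ j : ℕ, (1 / (2 * Real.pi) : ℂ) * ∫ t in (0 : ℝ)..(2 * Real.pi),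
      (cb a j : ℂ) * ((A : ℂ) * ee t) ^ j * ee (-((n : ℝ) * t)) =
      if (j : ℤ) = n then ((cb a j * A ^ j : ℝ) : ℂ) else 0 := by
    intro j
    have e1 : ∀ t : ℝ, (cb a j : ℂ) * ((A : ℂ) * ee t) ^ j * ee (-((n : ℝ) * t)) =
        ((cb a j * A ^ j : ℝ) : ℂ) * ee ((((j : ℤ) - n : ℤ) : ℝ) * t) := by
      intro t
      rw [mul_pow, ee_pow]
      have : ee ((((j : ℤ) - n : ℤ) : ℝ) * t) = ee ((j : ℝ) * t) * ee (-((n : ℝ) * t)) := by
        rw [← ee_add]; congr 1; push_cast; ring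
      rw [this]
      push_cast
      ring
    simp_rw [e1]
    rw [intervalIntegral.integral_const_mul]
    have h3 := int_ee_z ((j : ℤ) - n)
    rw [mul_left_comm, h3]
    by_cases hj : (j : ℤ) = n
    · rw [if_pos hj, if_pos (by omega), mul_one]
    · rw [if_neg hj, if_neg (by omega), mul_zero]
  simp_rw [e] at h2
  have h3 := h2.tsum_eq
  rw [← h3]
  by_cases hn : 0 ≤ n
  · rw [if_pos hn]
    rw [tsum_eq_single n.toNat]
    · rw [if_pos (Int.toNat_of_nonneg hn)]
    · intro j hj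
      rw [if_neg]
      intro h
      apply hj
      omega
  · rw [if_neg hn]
    have : ∀ j : ℕ, (if (j : ℤ) = n then ((cb a j * A ^ j : ℝ) : ℂ) else 0) = 0 := by
      intro j
      rw [if_neg]
      intro h
      omega
    simp_rw [this]
    exact tsum_zero

/-- the coefficients of the products -/
noncomputable def cM (A a b : ℝ) (n j : ℕ) : ℝ := cb a (j + n) * cb b j * A ^ (2 * j + n)

/-- `gp A a · conj (gp A b)` -/
noncomputable def gq (A a b : ℝ) (θ : ℝ) : ℂ := gp A a θ * (starRingEnd ℂ) (gp A b θ)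

/-- the double binomial series, nonnegative orders -/
theorem hasSum_gq (A a b : ℝ) (hA : 0 ≤ A) (hA1 : A < 1) (n : ℕ) :
    HasSum (fun j : ℕ => (cM A a b n j : ℂ)) (fc (gq A a b) (n : ℤ)) := by
  have ha := bm_gp A a hA hA1
  have hb := bm_gp A b hA hA1
  have hb' := hb.mul (BM.eec (n : ℝ))
  have h := pars2 ha hb'
  have e1 : (1 / (2 * Real.pi) : ℂ) * ∫ t in (0 : ℝ)..(2 * Real.pi),
      gp A a t * (starRingEnd ℂ) (gp A b t * ee ((n : ℝ) * t)) = fc (gq A a b) (n : ℤ) := by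
    unfold fc gq
    congr 1
    refine intervalIntegral.integral_congr fun t _ => ?_
    show gp A a t * (starRingEnd ℂ) (gp A b t * ee ((n : ℝ) * t)) =
      gp A a t * (starRingEnd ℂ) (gp A b t) * ee (-(((n : ℤ) : ℝ) * t))
    rw [map_mul, ← ee_neg]
    push_cast
    ring
  rw [e1] at h
  have e2 : ∀ m : ℤ, fc (fun t => gp A b t * ee ((n : ℝ) * t)) m = fc (gp A b) (m - n) := by
    intro m
    unfold fc
    congr 1
    refine intervalIntegral.integral_congr fun t _ => ?_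
    show gp A b t * ee ((n : ℝ) * t) * ee (-((m : ℝ) * t)) = gp A b t * ee (-(((m - n : ℤ) : ℝ) * t))
    rw [mul_assoc, ← ee_add]
    congr 2
    push_cast
    ring
  simp_rw [e2, fc_gp A a hA hA1, fc_gp A b hA hA1] at h
  have hinj : Function.Injective (fun j : ℕ => ((j : ℤ) + n)) := by
    intro x y hxy
    simp only at hxy
    omega
  have hsupp : ∀ m : ℤ, m ∉ Set.range (fun j : ℕ => ((j : ℤ) + n)) →
      (if 0 ≤ m then ((cb a m.toNat * A ^ m.toNat : ℝ) : ℂ) else 0) *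
        (starRingEnd ℂ) (if 0 ≤ m - n then ((cb b (m - n).toNat * A ^ (m - n).toNat : ℝ) : ℂ) else 0) = 0 := by
    intro m hm
    by_cases h0 : 0 ≤ m - n
    · exfalso
      apply hm
      refine ⟨(m - n).toNat, ?_⟩
      show (((m - n).toNat : ℕ) : ℤ) + n = m
      omega
    · rw [if_neg h0]; simp
  have h2 := (hinj.hasSum_iff hsupp).2 h
  convert h2 using 1
  funext j
  show (cM A a b n j : ℂ) = _
  unfold cM
  simp only [Function.comp]
  rw [if_pos (by omega : (0 : ℤ) ≤ (j : ℤ) + n), if_pos (by omega : (0 : ℤ) ≤ (j : ℤ) + n - n)]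
  have e3 : ((j : ℤ) + n).toNat = j + n := by omega
  have e4 : ((j : ℤ) + n - n).toNat = j := by omega
  rw [e3, e4, Complex.conj_ofReal]
  push_cast
  ring

theorem fc_gq_real (A a b : ℝ) (hA : 0 ≤ A) (hA1 : A < 1) (n : ℕ) :
    fc (gq A a b) (n : ℤ) = ((∑' j : ℕ, cM A a b n j : ℝ) : ℂ) := by
  rw [Complex.ofReal_tsum]
  exact (hasSum_gq A a b hA hA1 n).tsum_eq.symm

/-- negative orders -/
theorem fc_gq_neg (A a b : ℝ) (hA : 0 ≤ A) (hA1 : A < 1) (n : ℕ) :
    fc (gq A a b) (-(n : ℤ)) = fc (gq A b a) (n : ℤ) := by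
  have h := fc_conj (gq A b a) (-(n : ℤ))
  have e : (fun t => (starRingEnd ℂ) (gq A b a t)) = gq A a b := by
    funext t
    unfold gq
    rw [map_mul, Complex.conj_conj]
    ring
  rw [e, neg_neg] at h
  rw [h, fc_gq_real A b a hA hA1, Complex.conj_ofReal]

theorem summable_cM (A a b : ℝ) (hA : 0 ≤ A) (hA1 : A < 1) (n : ℕ) :
    Summable fun j : ℕ => cM A a b n j := by
  have h := (hasSum_gq A a b hA hA1 n).summable
  exact Complex.summable_ofReal.1 h

/-- tail of the double binomial series -/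
theorem tail_cM (A a b : ℝ) (hA : 0 ≤ A) (hA1 : A < 1) (n J : ℕ)
    (hr : ∀ j : ℕ, J ≤ j → |a - ((j : ℝ) + n)| * |b - j| ≤ ((j : ℝ) + n + 1) * ((j : ℝ) + 1)) :
    |∑' j : ℕ, cM A a b n j - ∑ j ∈ Finset.range J, cM A a b n j| ≤ |cM A a b n J| / (1 - A ^ 2) := by
  have hs := summable_cM A a b hA hA1 n
  have hd : ∀ i : ℕ, |cM A a b n (i + J)| ≤ |cM A a b n J| * (A ^ 2) ^ i := by
    intro i
    induction i with
    | zero => simp
    | succ i ih =>
      have e : cM A a b n (i + 1 + J) = cM A a b n (i + J) *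
          ((a - ((i + J : ℕ) + n)) * (b - (i + J : ℕ)) /
            ((((i + J : ℕ) : ℝ) + n + 1) * (((i + J : ℕ) : ℝ) + 1))) * A ^ 2 := by
        unfold cM
        rw [show i + 1 + J + n = (i + J + n) + 1 by ring, show i + 1 + J = (i + J) + 1 by ring,
          cb_succ, cb_succ, show 2 * (i + J + 1) + n = (2 * (i + J) + n) + 2 by ring, pow_add]
        have h1 : (((i + J + n : ℕ) : ℝ) + 1) ≠ 0 := by positivity
        have h2 : (((i + J : ℕ) : ℝ) + 1) ≠ 0 := by positivity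
        have h3 : (((i + J : ℕ) : ℝ) + n + 1) ≠ 0 := by positivity
        push_cast at h1 h2 h3 ⊢
        field_simp
      rw [e, abs_mul, abs_mul, abs_of_nonneg (by positivity : (0 : ℝ) ≤ A ^ 2)]
      have h1 : |(a - ((i + J : ℕ) + n)) * (b - (i + J : ℕ)) /
            ((((i + J : ℕ) : ℝ) + n + 1) * (((i + J : ℕ) : ℝ) + 1))| ≤ 1 := by
        rw [abs_div, abs_mul, abs_of_nonneg (by positivity : (0 : ℝ) ≤
          (((i + J : ℕ) : ℝ) + n + 1) * (((i + J : ℕ) : ℝ) + 1)), div_le_one (by positivity)]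
        exact hr (i + J) (by omega)
      calc |cM A a b n (i + J)| * |(a - ((i + J : ℕ) + n)) * (b - (i + J : ℕ)) /
            ((((i + J : ℕ) : ℝ) + n + 1) * (((i + J : ℕ) : ℝ) + 1))| * A ^ 2
          ≤ |cM A a b n (i + J)| * 1 * A ^ 2 := by gcongr
        _ ≤ |cM A a b n J| * (A ^ 2) ^ i * 1 * A ^ 2 := by gcongr
        _ = |cM A a b n J| * (A ^ 2) ^ (i + 1) := by ring
  have h2 := hs.sum_add_tsum_nat_add J
  have h3 : ∑' j : ℕ, cM A a b n j - ∑ j ∈ Finset.range J, cM A a b n j =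
      ∑' i : ℕ, cM A a b n (i + J) := by linarith
  rw [h3]
  have hA2 : A ^ 2 < 1 := by nlinarith
  have hg : HasSum (fun i : ℕ => |cM A a b n J| * (A ^ 2) ^ i) (|cM A a b n J| * (1 - A ^ 2)⁻¹) :=
    (hasSum_geometric_of_lt_one (by positivity) hA2).mul_left _
  rw [div_eq_mul_inv]
  have := tsum_of_norm_bounded hg (f := fun i => cM A a b n (i + J)) (fun i => by
    rw [Real.norm_eq_abs]; exact hd i)
  rwa [Real.norm_eq_abs] at this

end Pool.Agent.Helper35.RC
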