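import Pool.Agent.Helper34.BX.Box

/-!
# Project RC, SHARP: the Taylor polynomial of `‖1 + ζ‖`, lower bound with remainder of order 6
-/

set_option autoImplicit false

namespace Pool.Agent.Helper35.RC

open Helper34.BX

/-- the coefficient of `y²` in the Taylor polynomial minus the remainder `(x²+y²)²/8` -/
noncomputable def mT (x v : ℝ) : ℝ :=
  1 / 2 - x / 2 + x ^ 2 / 2 - v / 8 - x ^ 3 / 2 + 3 * x * v / 8 - (x ^ 2 + v) ^ 2 / 8

/-- the polynomial of the box test -/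
def GT : List (List ℤ) := [[24, 0, 7, 0, -2, 0, -1], [0, -16, 0, -2, 0, 6, 0], [-112, 0, 27, 0, 3, 0, 1],
  [0, 128, 0, -42, 0, -20, 0], [168, 0, -115, 0, 41, 0, 0], [0, -96, 0, 114, 0, 14, 0],
  [0, 0, 81, 0, -91, 0, 0], [0, 0, 0, -70, 0, 0, 0], [0, 0, 0, 0, 49, 0, 0]]

theorem GT_chk : chk 14 true 0 61 100 (-100) 101 100 GT = true := by decide +kernel

theorem GT_nonneg (r a : ℝ) (hr : 0 ≤ r) (hr1 : r ≤ 3 / 5) (ha : -1 ≤ a) (ha1 : a ≤ 1) :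
    0 ≤ ev2 GT r a := by
  refine box_nonneg 14 true (by norm_num) (by norm_num) GT_chk ?_ ?_ ?_ ?_
  all_goals push_cast
  all_goals linarith

theorem KT_nonneg (x y : ℝ) (h : x ^ 2 + y ^ 2 ≤ 9 / 25) :
    0 ≤ 1 - 2 * (1 + x) * mT x (y ^ 2) - y ^ 2 * mT x (y ^ 2) ^ 2 := by
  set r := Real.sqrt (x ^ 2 + y ^ 2) with hr
  have hr0 : 0 ≤ r := Real.sqrt_nonneg _
  have hr2 : r ^ 2 = x ^ 2 + y ^ 2 := Real.sq_sqrt (by positivity)
  have hr1 : r ≤ 3 / 5 := by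
    rw [hr]
    apply Real.sqrt_le_iff.2
    constructor
    · norm_num
    · linarith
  rcases eq_or_lt_of_le hr0 with h0 | h0
  · have h1 : x ^ 2 + y ^ 2 = 0 := by rw [← hr2, ← h0]; ring
    have hx : x = 0 := by nlinarith [sq_nonneg x, sq_nonneg y]
    have hy : y = 0 := by nlinarith [sq_nonneg x, sq_nonneg y]
    rw [hx, hy]
    unfold mT
    norm_num
  · set a := x / r with ha
    have hx : x = r * a := by rw [ha]; field_simp
    have hy : y ^ 2 = r ^ 2 * (1 - a ^ 2) := by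
      have : y ^ 2 = r ^ 2 - x ^ 2 := by linarith
      rw [this, hx]; ring
    have ha2 : a ^ 2 ≤ 1 := by
      by_contra hcon
      push Not at hcon
      have : r ^ 2 * (1 - a ^ 2) < 0 := by
        have : 0 < r ^ 2 := by positivity
        nlinarith
      rw [← hy] at this
      nlinarith [sq_nonneg y]
    have h1 := GT_nonneg r a hr0 hr1 (by nlinarith) (by nlinarith)
    have e : 1 - 2 * (1 + x) * mT x (y ^ 2) - y ^ 2 * mT x (y ^ 2) ^ 2 = r ^ 4 / 64 * ev2 GT r a := by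
      rw [hy, hx]
      unfold mT GT
      simp only [ev2_cons, ev2_nil, ev_cons, ev_nil]
      push_cast
      ring
    rw [e]
    positivity

/-- the Taylor polynomial of degree 5 of `‖1 + x + i y‖` -/
noncomputable def P5 (x y : ℝ) : ℝ :=
  1 + x + y ^ 2 / 2 - x * y ^ 2 / 2 + x ^ 2 * y ^ 2 / 2 - y ^ 4 / 8 - x ^ 3 * y ^ 2 / 2
    + 3 * x * y ^ 4 / 8

theorem sq_le_imp {a b : ℝ} (h : a ^ 2 ≤ b ^ 2) (hb : 0 ≤ b) : a ≤ b := by
  by_contra hc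
  push Not at hc
  nlinarith

/-- **lower bound** -/
theorem abs_lb (ζ : ℂ) (h : ‖ζ‖ ^ 2 ≤ 9 / 25) :
    P5 ζ.re ζ.im - ζ.im ^ 2 * (‖ζ‖ ^ 2) ^ 2 / 8 ≤ ‖1 + ζ‖ := by
  have hn : ‖ζ‖ ^ 2 = ζ.re ^ 2 + ζ.im ^ 2 := by
    rw [← Complex.normSq_eq_norm_sq, Complex.normSq_apply]; ring
  rw [hn] at h ⊢
  have h1 := KT_nonneg ζ.re ζ.im h
  have h2 : ‖1 + ζ‖ ^ 2 = (1 + ζ.re) ^ 2 + ζ.im ^ 2 := by
    rw [← Complex.normSq_eq_norm_sq, Complex.normSq_apply]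
    simp only [Complex.add_re, Complex.one_re, Complex.add_im, Complex.one_im]
    ring
  have e : P5 ζ.re ζ.im - ζ.im ^ 2 * (ζ.re ^ 2 + ζ.im ^ 2) ^ 2 / 8 =
      1 + ζ.re + ζ.im ^ 2 * mT ζ.re (ζ.im ^ 2) := by
    unfold P5 mT; ring
  rw [e]
  refine sq_le_imp ?_ (norm_nonneg _)
  rw [h2]
  nlinarith [mul_nonneg (sq_nonneg ζ.im) h1]

end Pool.Agent.Helper35.RC
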